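import Mathlib

/-!
Affine subspaces of the Boolean cube.
-/

namespace Pool.Agent.Lib.MP_0e79d0_lcF

/-- The set `A` of assignments is an affine subspace over the field with two elements (possibly
empty): it is the set of the solutions of a finite system of equations, each of which prescribes
the parity of the number of ones of `α` in a set of variables. -/
def IsAffine {n : ℕ} (A : Set (Fin n → Bool)) : Prop :=
  ∃ eqs : List (Finset (Fin n) × Bool), A = {α | ∀ p ∈ eqs,
    decide (Odd (p.1.filter (fun i => α i = true)).card) = p.2}

end Pool.Agent.Lib.MP_0e79d0_lcF
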