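import Mathlib
import Pool.Agent.Lib.MP_0e79d0_lc.Expander
import Pool.Agent.Lib.MP_0e79d0_lc.TwoLevel
import Pool.Agent.Lib.MP_0e79d0_lc.Defs

section

/-!
Assignment of the bits to hyperedges such that half of the hyperedges cover almost all bits,
with two independent parameters.
-/

namespace Pool.Agent.Lib.MP_0e79d0_lcF

open Finset Pool.Agent.Lib.MP_0e79d0_lc

theorem exists_assign (a g M : ℕ) (hg : 1 ≤ g) (hM1 : 1 ≤ M)
    (hpoly : (4 * M * (2 ^ a * g) + 1) ^ (a + 4) < 4 ^ M)
    (𝒯 : Finset (Finset (Fin (2 * M) × Fin (2 ^ 1)))) (h𝒯 : #𝒯 ≤ 2 ^ (2 * M))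
    (hT : ∀ T ∈ 𝒯, #T ≤ 2 * M) :
    ∃ π : Fin (a + 4) → Equiv.Perm ((Fin (2 * M) × Fin (2 ^ 1)) × Fin (2 ^ a * g)),
      ∀ T ∈ 𝒯, #(univ.filter (fun i : (Fin (2 * M) × Fin (2 ^ 1)) × Fin (2 ^ a * g) =>
        ∀ s, (π s i).1 ∈ T)) < 4 * M * g := by
  by_contra hcon
  push Not at hcon
  set R := 2 ^ a * g with hR
  have hRpos : 0 < R := by positivity
  set q := 4 * M * g with hq
  set N := q * 2 ^ a with hN
  have hN2 : N = 4 * M * R := by rw [hN, hq, hR]; ring
  have hcardI : Fintype.card ((Fin (2 * M) × Fin (2 ^ 1)) × Fin R) = N := by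
    simp only [Fintype.card_prod, Fintype.card_fin]
    rw [hN2]; ring
  have hcardE : Fintype.card (Fin (2 * M) × Fin (2 ^ 1)) = 4 * M := by
    simp only [Fintype.card_prod, Fintype.card_fin]; ring
  let Q : Finset (Fin (2 * M) × Fin (2 ^ 1)) →
      Finset ((Fin (2 * M) × Fin (2 ^ 1)) × Fin R) →
      Finset (Equiv.Perm ((Fin (2 * M) × Fin (2 ^ 1)) × Fin R)) := fun T B =>
    univ.filter (fun π => ∀ i ∈ B, (π i).1 ∈ T)
  have hcover : (univ : Finset (Fin (a + 4) →
      Equiv.Perm ((Fin (2 * M) × Fin (2 ^ 1)) × Fin R))) ⊆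
      (𝒯 ×ˢ powersetCard q univ).biUnion
        (fun p => Fintype.piFinset (fun _ => Q p.1 p.2)) := by
    intro π _
    obtain ⟨T, hTT, hu⟩ := hcon π
    obtain ⟨B, hB, hBc⟩ := Finset.exists_subset_card_eq hu
    rw [Finset.mem_biUnion]
    refine ⟨(T, B), ?_, ?_⟩
    · rw [Finset.mem_product, Finset.mem_powersetCard]
      exact ⟨hTT, ⟨Finset.subset_univ _, hBc⟩⟩
    · rw [Fintype.mem_piFinset]
      intro s
      simp only [Q, mem_filter, mem_univ, true_and]
      intro i hi
      exact (Finset.mem_filter.mp (hB hi)).2 s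
  have hQ : ∀ T ∈ 𝒯, ∀ B : Finset ((Fin (2 * M) × Fin (2 ^ 1)) × Fin R), #B = q →
      (#(Q T B) : ℝ) ≤ (N + 1) * (1 / 2) ^ q * N.factorial := by
    intro T hTT B hB
    obtain ⟨T', hT', hT'c⟩ := Finset.exists_superset_card_eq (hT T hTT) (by
      rw [hcardE]; omega)
    have hA : #(T' ×ˢ (univ : Finset (Fin R))) = 2 * M * R := by
      rw [Finset.card_product, hT'c, Finset.card_univ, Fintype.card_fin]
    have hNR : (N:ℝ) = 4 * M * R := by rw [hN2]; push_cast; ring
    have h1 := card_fix_le (T' ×ˢ (univ : Finset (Fin R))) B univ (1 / 2)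
      (by rw [hA]; positivity)
      (by
        rw [hA, hcardI, hN2]
        apply Nat.mul_lt_mul_of_pos_right _ hRpos
        omega)
      (by
        rw [hA, hcardI, hNR]
        push_cast
        linarith)
      (by
        rw [hA, hcardI, hNR]
        push_cast
        linarith)
    rw [hcardI, hB] at h1
    refine le_trans ?_ h1
    have h2 : #(Q T B) ≤ #(univ.filter
        (fun π : Equiv.Perm ((Fin (2 * M) × Fin (2 ^ 1)) × Fin R) =>
        ∀ i ∈ B, (π i ∈ T' ×ˢ (univ : Finset (Fin R)) ↔
          i ∈ (univ : Finset ((Fin (2 * M) × Fin (2 ^ 1)) × Fin R))))) := by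
      apply Finset.card_le_card
      intro π hπ
      rw [Finset.mem_filter] at hπ ⊢
      refine ⟨hπ.1, fun i hi => ?_⟩
      have h3 := hT' (hπ.2 i hi)
      simp only [Finset.mem_product, Finset.mem_univ, and_true, h3]
    exact_mod_cast h2
  have h1 := Finset.card_le_card hcover
  have h2 : (#((𝒯 ×ˢ powersetCard q univ).biUnion
        (fun p : Finset (Fin (2 * M) × Fin (2 ^ 1)) ×
          Finset ((Fin (2 * M) × Fin (2 ^ 1)) × Fin R) =>
          Fintype.piFinset (fun _ : Fin (a + 4) => Q p.1 p.2))) : ℝ) ≤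
      (2 ^ (2 * M) * N.choose q) * ((N + 1) * (1 / 2) ^ q * N.factorial) ^ (a + 4) := by
    have h3 : (#((𝒯 ×ˢ powersetCard q univ).biUnion
        (fun p : Finset (Fin (2 * M) × Fin (2 ^ 1)) ×
          Finset ((Fin (2 * M) × Fin (2 ^ 1)) × Fin R) =>
          Fintype.piFinset (fun _ : Fin (a + 4) => Q p.1 p.2))) : ℝ) ≤
        ∑ p ∈ 𝒯 ×ˢ powersetCard q univ, (#(Fintype.piFinset (fun _ : Fin (a + 4) =>
          Q p.1 p.2)) : ℝ) := by exact_mod_cast Finset.card_biUnion_le
    refine h3.trans ?_
    refine (Finset.sum_le_card_nsmul _ _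
      ((((N:ℝ) + 1) * (1 / 2) ^ q * (N.factorial : ℝ)) ^ (a + 4)) ?_).trans ?_
    · intro p hp
      rw [Finset.mem_product, Finset.mem_powersetCard] at hp
      rw [Fintype.card_piFinset_const]
      push_cast
      exact pow_le_pow_left₀ (by positivity) (hQ p.1 hp.1 p.2 hp.2.2) _
    · rw [nsmul_eq_mul, Finset.card_product, Finset.card_powersetCard,
        Finset.card_univ, hcardI]
      push_cast
      apply mul_le_mul_of_nonneg_right _ (by positivity)
      apply mul_le_mul_of_nonneg_right _ (by positivity)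
      exact_mod_cast h𝒯
  have h3 : Fintype.card (Fin (a + 4) →
      Equiv.Perm ((Fin (2 * M) × Fin (2 ^ 1)) × Fin R)) = N.factorial ^ (a + 4) := by
    rw [Fintype.card_fun, Fintype.card_perm, hcardI, Fintype.card_fin]
  rw [Finset.card_univ, h3] at h1
  have h4 : ((N.factorial : ℝ)) ^ (a + 4) ≤
      (2 ^ (2 * M) * N.choose q) * ((N + 1) * (1 / 2) ^ q * N.factorial) ^ (a + 4) := by
    refine le_trans ?_ h2
    exact_mod_cast h1
  have h5 : (1:ℝ) ≤ (2 ^ (2 * M) * N.choose q) * ((N + 1) * (1 / 2) ^ q) ^ (a + 4) := by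
    have h6 : (0:ℝ) < (N.factorial : ℝ) ^ (a + 4) := by positivity
    apply le_of_mul_le_mul_right _ h6
    rw [one_mul]
    refine h4.trans (le_of_eq ?_)
    rw [mul_pow _ (N.factorial : ℝ)]
    ring
  have h7 : (N.choose q : ℝ) ≤ ((4 * 2 ^ a) ^ q : ℝ) := by
    exact_mod_cast choose_le_four q (2 ^ a)
  have h8 : ((N:ℝ) + 1) ^ (a + 4) < 4 ^ M := by
    have e : 4 * M * R + 1 = N + 1 := by rw [hN2]
    rw [e] at hpoly
    exact_mod_cast hpoly
  have h10 : (2 ^ (2 * M) * (N.choose q : ℝ)) * ((N + 1) * (1 / 2) ^ q) ^ (a + 4) < 1 := by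
    calc (2 ^ (2 * M) * (N.choose q : ℝ)) * ((N + 1) * (1 / 2) ^ q) ^ (a + 4) =
        (2 ^ (2 * M) * (N.choose q : ℝ)) * (((N:ℝ) + 1) ^ (a + 4) * ((1 / 2) ^ q) ^ (a + 4)) := by
          rw [mul_pow]
      _ ≤ (2 ^ (2 * M) * (4 * 2 ^ a) ^ q) *
          (((N:ℝ) + 1) ^ (a + 4) * ((1 / 2) ^ q) ^ (a + 4)) := by gcongr
      _ = 2 ^ (2 * M) * ((4 * 2 ^ a) * (1 / 2 : ℝ) ^ (a + 4)) ^ q * ((N:ℝ) + 1) ^ (a + 4) := by
          have e : ((4 * 2 ^ a) * (1 / 2 : ℝ) ^ (a + 4)) ^ q =
              (4 * 2 ^ a) ^ q * ((1 / 2 : ℝ) ^ q) ^ (a + 4) := by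
            rw [mul_pow (4 * 2 ^ a : ℝ), ← pow_mul, ← pow_mul, mul_comm (a + 4) q]
          rw [e]
          ring
      _ = 2 ^ (2 * M) * (1 / 4 : ℝ) ^ q * ((N:ℝ) + 1) ^ (a + 4) := by
          have : (4 * 2 ^ a) * (1 / 2 : ℝ) ^ (a + 4) = 1 / 4 := by
            rw [pow_add, one_div, inv_pow]
            field_simp
            norm_num
          rw [this]
      _ < 2 ^ (2 * M) * (1 / 4 : ℝ) ^ q * 4 ^ M := by gcongr
      _ ≤ 2 ^ (2 * M) * (1 / 4 : ℝ) ^ (2 * M) * 4 ^ M := by
          have hq2 : 2 * M ≤ q := by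
            rw [hq]
            nlinarith
          have := pow_le_pow_of_le_one (show (0:ℝ) ≤ 1 / 4 by norm_num) (by norm_num) hq2
          gcongr
      _ = 1 := by
          rw [pow_mul 2 2 M, pow_mul (1 / 4 : ℝ) 2 M, ← mul_pow, ← mul_pow]
          norm_num
  linarith

/-- The combinatorial structure: `2 M` vertices, `4 M` hyperedges with `16` ends each, and
`4 M R` bits, `R = 2 ^ a g`, each assigned to at most `a + 4` hyperedges. -/
theorem exists_structure : ∃ M₁ : ℕ, ∀ M ≥ M₁, 1 ≤ M → ∀ a g : ℕ, 1 ≤ g →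
    (4 * M * (2 ^ a * g) + 1) ^ (a + 4) < 4 ^ M →
    ∃ (σ : Fin 15 → Equiv.Perm (Fin (2 * M) × Fin (2 ^ 1)))
      (π : Fin (a + 4) → Equiv.Perm ((Fin (2 * M) × Fin (2 ^ 1)) × Fin (2 ^ a * g))),
      ∀ S : Finset (Fin (2 * M)), M ≤ 2 * #S → #S ≤ M →
        #(univ.filter (fun i : (Fin (2 * M) × Fin (2 ^ 1)) × Fin (2 ^ a * g) =>
          ∀ s s', ((σ s' (π s i).1).1 ∈ S ↔ (π s i).1.1 ∈ S))) < 4 * M * g := by
  obtain ⟨M₁, hM₁⟩ := exists_perms 1
  refine ⟨M₁, fun M hM hM1 a g hg hpoly => ?_⟩
  obtain ⟨σ, hσ⟩ := hM₁ M hM hM1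
  classical
  let 𝒮 : Finset (Finset (Fin (2 * M))) := univ.filter (fun S => M ≤ 2 * #S ∧ #S ≤ M)
  let 𝒯 : Finset (Finset (Fin (2 * M) × Fin (2 ^ 1))) := 𝒮.image (fun S =>
    univ.filter (fun i : Fin (2 * M) × Fin (2 ^ 1) => ∀ s, ((σ s i).1 ∈ S ↔ i.1 ∈ S)))
  obtain ⟨π, hπ⟩ := exists_assign a g M hg hM1 hpoly 𝒯
    (by
      refine Finset.card_image_le.trans ((Finset.card_filter_le _ _).trans ?_)
      simp)
    (by
      intro T hT
      rw [Finset.mem_image] at hT
      obtain ⟨S, hS, rfl⟩ := hT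
      have h1 := (Finset.mem_filter.mp hS).2
      exact (hσ S h1.1 h1.2).le)
  refine ⟨σ, π, fun S hS hS' => ?_⟩
  have h1 := hπ _ (Finset.mem_image.mpr ⟨S, Finset.mem_filter.mpr ⟨Finset.mem_univ _, hS, hS'⟩,
    rfl⟩)
  refine lt_of_le_of_lt (Finset.card_le_card ?_) h1
  intro i hi
  rw [Finset.mem_filter] at hi ⊢
  refine ⟨hi.1, fun s => ?_⟩
  rw [Finset.mem_filter]
  exact ⟨Finset.mem_univ _, hi.2 s⟩

end Pool.Agent.Lib.MP_0e79d0_lcF
end

section

/-!
The moment method for parity systems with random local labels, on arbitrary sets of assignments: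
Khintchine's inequality and Minkowski's inequality for a decoupled chaos.
-/

set_option linter.unusedSectionVars false

namespace Pool.Agent.Lib.MP_0e79d0_lcF

open Finset Pool.Agent.Lib.MP_0e79d0_lc

theorem sgn_sum {ι : Type*} (D : Finset ι) (x : ι → ZMod 2) :
    sgn (∑ e ∈ D, x e) = ∏ e ∈ D, sgn (x e) := by
  classical
  induction D using Finset.induction_on with
  | empty => simp [sgn]
  | insert a D ha ih => rw [Finset.sum_insert ha, Finset.prod_insert ha, sgn_add, ih]

theorem two_factorial_le (n : ℕ) (hn : 2 ≤ n) : 2 * n.factorial ≤ n ^ n := by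
  induction n, hn using Nat.le_induction with
  | base => decide
  | succ n hn ih =>
    rw [Nat.factorial_succ, pow_succ]
    calc 2 * ((n + 1) * n.factorial) = (2 * n.factorial) * (n + 1) := by ring
      _ ≤ n ^ n * (n + 1) := Nat.mul_le_mul_right _ ih
      _ ≤ (n + 1) ^ n * (n + 1) := Nat.mul_le_mul_right _ (Nat.pow_le_pow_left (by omega) n)

theorem sum_exp_sgn {X : Type*} [Fintype X] [DecidableEq X] (b : X → ℝ) :
    ∑ u : X → ZMod 2, Real.exp (∑ w, sgn (u w) * b w) ≤
      2 ^ Fintype.card X * Real.exp ((∑ w, b w ^ 2) / 2) := by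
  have h1 : ∑ u : X → ZMod 2, Real.exp (∑ w, sgn (u w) * b w) =
      ∏ w, ∑ c : ZMod 2, Real.exp (sgn c * b w) := by
    rw [Finset.prod_univ_sum, Fintype.piFinset_univ]
    exact Finset.sum_congr rfl fun u _ => Real.exp_sum _ _
  have h2 : ∀ w, ∑ c : ZMod 2, Real.exp (sgn c * b w) ≤ 2 * Real.exp (b w ^ 2 / 2) := by
    intro w
    have h3 : ∑ c : ZMod 2, Real.exp (sgn c * b w) = Real.exp (b w) + Real.exp (-b w) := by
      have : (univ : Finset (ZMod 2)) = {0, 1} := by decide
      rw [this, Finset.sum_pair (by decide), sgn_zero, sgn_one]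
      simp
    have h4 := Real.cosh_le_exp_half_sq (b w)
    rw [Real.cosh_eq] at h4
    rw [h3]
    linarith
  rw [h1]
  calc ∏ w, ∑ c : ZMod 2, Real.exp (sgn c * b w) ≤ ∏ w, (2 * Real.exp (b w ^ 2 / 2)) :=
        Finset.prod_le_prod (fun w _ => Finset.sum_nonneg fun c _ => (Real.exp_pos _).le)
          (fun w _ => h2 w)
    _ = _ := by
        rw [Finset.prod_mul_distrib, Finset.prod_const, Finset.card_univ, ← Real.exp_sum,
          Finset.sum_div]

/-- Khintchine's inequality for an even moment (with a crude constant). -/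
theorem khintchine {X : Type*} [Fintype X] [DecidableEq X] (a : X → ℝ) (p : ℕ) (hp : 1 ≤ p) :
    ∑ u : X → ZMod 2, (∑ w, sgn (u w) * a w) ^ (2 * p) ≤
      2 ^ Fintype.card X * ((((2 * p : ℕ) : ℝ) ^ (2 * p)) * (∑ w, a w ^ 2) ^ p) := by
  set A : ℝ := ∑ w, a w ^ 2 with hA
  have hA0 : 0 ≤ A := Finset.sum_nonneg fun w _ => sq_nonneg _
  rcases hA0.eq_or_lt with h0 | hpos
  · have h1 : ∀ w, a w = 0 := by
      intro w
      have := (Finset.sum_eq_zero_iff_of_nonneg (fun w _ => sq_nonneg (a w))).mp h0.symm w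
        (Finset.mem_univ _)
      exact pow_eq_zero_iff (two_ne_zero) |>.mp this
    simp only [h1, mul_zero, Finset.sum_const_zero]
    rw [zero_pow (by omega), Finset.sum_const_zero]
    positivity
  · set σ : ℝ := Real.sqrt A with hσ
    have hσ0 : 0 < σ := Real.sqrt_pos.mpr hpos
    have hσ2 : σ ^ 2 = A := Real.sq_sqrt hA0
    set b : X → ℝ := fun w => a w / σ with hb
    have hb2 : ∑ w, b w ^ 2 = 1 := by
      simp only [hb, div_pow, hσ2]
      rw [← Finset.sum_div, ← hA, div_self hpos.ne']
    have hX : ∀ u : X → ZMod 2, ∑ w, sgn (u w) * a w = σ * ∑ w, sgn (u w) * b w := by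
      intro u
      rw [Finset.mul_sum]
      refine Finset.sum_congr rfl fun w _ => ?_
      simp only [hb]
      field_simp
    have hcosh : ∀ x : ℝ, x ^ (2 * p) ≤ (2 * p).factorial * Real.cosh x := by
      intro x
      have h1 := Real.hasSum_cosh x
      have h2 := h1.summable.sum_le_tsum {p} (fun i _ => by
        rw [pow_mul]
        positivity)
      rw [h1.tsum_eq, Finset.sum_singleton, div_le_iff₀ (by positivity)] at h2
      exact h2.trans (le_of_eq (mul_comm _ _))
    have h3 : ∑ u : X → ZMod 2, Real.cosh (∑ w, sgn (u w) * b w) ≤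
        2 ^ Fintype.card X * Real.exp (1 / 2) := by
      have h4 := sum_exp_sgn b
      have h5 := sum_exp_sgn (fun w => -b w)
      rw [hb2] at h4
      simp only [neg_sq, hb2, mul_neg, Finset.sum_neg_distrib] at h5
      simp only [Real.cosh_eq]
      rw [← Finset.sum_div, Finset.sum_add_distrib]
      linarith
    have hexp : Real.exp (1 / 2) ≤ 2 := by
      have h1 : Real.exp (1 / 2) ^ 2 = Real.exp 1 := by
        rw [← Real.exp_nat_mul]; norm_num
      have h2 := Real.exp_one_lt_d9
      have h3 := Real.exp_pos (1 / 2 : ℝ)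
      nlinarith
    have hfac : ((2 * p).factorial : ℝ) * 2 ≤ ((2 * p : ℕ) : ℝ) ^ (2 * p) := by
      have := two_factorial_le (2 * p) (by omega)
      rw [mul_comm] at this
      exact_mod_cast this
    calc ∑ u : X → ZMod 2, (∑ w, sgn (u w) * a w) ^ (2 * p) =
        ∑ u : X → ZMod 2, A ^ p * (∑ w, sgn (u w) * b w) ^ (2 * p) := by
          refine Finset.sum_congr rfl fun u _ => ?_
          rw [hX, mul_pow, pow_mul σ, hσ2]
      _ ≤ ∑ u : X → ZMod 2, A ^ p * ((2 * p).factorial * Real.cosh (∑ w, sgn (u w) * b w)) := by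
          refine Finset.sum_le_sum fun u _ => ?_
          exact mul_le_mul_of_nonneg_left (hcosh _) (by positivity)
      _ = A ^ p * ((2 * p).factorial * ∑ u : X → ZMod 2, Real.cosh (∑ w, sgn (u w) * b w)) := by
          rw [Finset.mul_sum, Finset.mul_sum]
      _ ≤ A ^ p * ((2 * p).factorial * (2 ^ Fintype.card X * 2)) := by
          gcongr
          exact h3.trans (by gcongr)
      _ = 2 ^ Fintype.card X * ((((2 * p).factorial : ℝ) * 2) * A ^ p) := by ring
      _ ≤ _ := by gcongr

/-- Minkowski's inequality in the form needed below. -/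
theorem mink {H ι : Type*} [Fintype H] [DecidableEq ι] (s : Finset ι) (g : H → ι → ℝ) (B : ι → ℝ)
    (K : ℝ) (p : ℕ) (hp : 1 ≤ p) (hg : ∀ h i, 0 ≤ g h i) (hB : ∀ i ∈ s, 0 ≤ B i)
    (hb : ∀ i ∈ s, ∑ h, g h i ^ p ≤ K * B i ^ p) :
    ∑ h, (∑ i ∈ s, g h i) ^ p ≤ K * (∑ i ∈ s, B i) ^ p := by
  have hz : ∀ i ∈ s, B i = 0 → ∀ h, g h i = 0 := by
    intro i hi h0 h
    have h1 := hb i hi
    rw [h0, zero_pow (by omega), mul_zero] at h1
    have h2 : g h i ^ p ≤ 0 := (Finset.single_le_sum (f := fun h => g h i ^ p)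
      (fun h _ => pow_nonneg (hg h i) p) (Finset.mem_univ h)).trans h1
    have h3 : g h i ^ p = 0 := le_antisymm h2 (pow_nonneg (hg h i) p)
    exact pow_eq_zero_iff (by omega) |>.mp h3
  set s' := s.filter (fun i => B i ≠ 0) with hs'
  have hg' : ∀ h, ∑ i ∈ s, g h i = ∑ i ∈ s', g h i := by
    intro h
    rw [hs', Finset.sum_filter]
    refine Finset.sum_congr rfl fun i hi => ?_
    split_ifs with h1
    · rfl
    · push Not at h1
      exact hz i hi h1 h
  have hB' : ∑ i ∈ s, B i = ∑ i ∈ s', B i := by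
    rw [hs', Finset.sum_filter]
    refine Finset.sum_congr rfl fun i hi => ?_
    split_ifs with h1
    · rfl
    · push Not at h1
      exact h1
  simp only [hg', hB']
  have hpos : ∀ i ∈ s', 0 < B i := by
    intro i hi
    rw [hs', Finset.mem_filter] at hi
    exact lt_of_le_of_ne (hB i hi.1) (Ne.symm hi.2)
  set S := ∑ i ∈ s', B i with hS
  rcases s'.eq_empty_or_nonempty with he | hne
  · rw [hS, he]
    simp only [Finset.sum_empty]
    rw [zero_pow (by omega), Finset.sum_const_zero, mul_zero]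
  · have hS0 : 0 < S := Finset.sum_pos hpos hne
    have h1 : ∀ h, (∑ i ∈ s', g h i) ^ p ≤ ∑ i ∈ s', (B i / S) * (g h i * S / B i) ^ p := by
      intro h
      have h2 := Real.pow_arith_mean_le_arith_mean_pow s' (fun i => B i / S)
        (fun i => g h i * S / B i) (fun i hi => by have := hpos i hi; positivity)
        (by rw [← Finset.sum_div, ← hS, div_self hS0.ne'])
        (fun i hi => by have := hpos i hi; have := hg h i; positivity) p
      refine le_trans (le_of_eq ?_) h2
      congr 1
      refine Finset.sum_congr rfl fun i hi => ?_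
      have := hpos i hi
      field_simp
    calc ∑ h, (∑ i ∈ s', g h i) ^ p ≤ ∑ h, ∑ i ∈ s', (B i / S) * (g h i * S / B i) ^ p :=
          Finset.sum_le_sum fun h _ => h1 h
      _ = ∑ i ∈ s', (B i / S) * ((S / B i) ^ p * ∑ h, g h i ^ p) := by
          rw [Finset.sum_comm]
          refine Finset.sum_congr rfl fun i _ => ?_
          rw [Finset.mul_sum, Finset.mul_sum]
          refine Finset.sum_congr rfl fun h _ => ?_
          rw [mul_div_assoc, mul_pow]
          ring
      _ ≤ ∑ i ∈ s', (B i / S) * ((S / B i) ^ p * (K * B i ^ p)) := by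
          refine Finset.sum_le_sum fun i hi => ?_
          have := hpos i hi
          have := hb i (Finset.mem_filter.mp hi).1
          gcongr
      _ = ∑ i ∈ s', (B i / S) * (K * S ^ p) := by
          refine Finset.sum_congr rfl fun i hi => ?_
          have := hpos i hi
          rw [div_pow]
          field_simp
      _ = K * S ^ p := by
          rw [← Finset.sum_mul, ← Finset.sum_div, ← hS, div_self hS0.ne', one_mul]

section Labels

variable {V E : Type} [Fintype V] [DecidableEq V] [Fintype E] [DecidableEq E] {t n : ℕ}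
  (root : E → V) (leaf : Fin t → E → V) (U : E → Finset (Fin n))

/-- The coefficient of the label `s` of the hyperedge `e` in the sum of the equations in `S`. -/
def cc (S : Finset V) (e : E) (s : Fin t) : ZMod 2 := ∑ j ∈ S, inc root leaf e s j

/-- The sign contributed by the hyperedge `e`. -/
noncomputable def xi (S : Finset V) (h : Lab E t n) (e : E) (α : Fin n → Bool) : ℝ :=
  sgn (∑ s, h e s (proj (U e) α) * cc root leaf S e s)

theorem chr_eq_prod (S : Finset V) (h : Lab E t n) (α : Fin n → Bool) :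
    chr (yy root leaf U h 0 α) S = ∏ e, xi root leaf U S h e α := by
  simp only [chr, xi, yy]
  rw [← sgn_sum]
  congr 1
  simp only [Pi.zero_apply, zero_add]
  rw [Finset.sum_comm]
  refine Finset.sum_congr rfl fun e _ => ?_
  rw [Finset.sum_comm]
  refine Finset.sum_congr rfl fun s _ => ?_
  rw [cc, Finset.mul_sum]

/-- The hyperedge `e` is cut by `S`. -/
def Cut (S : Finset V) (e : E) : Prop := ¬ ∀ s, (leaf s e ∈ S ↔ root e ∈ S)

theorem cc_eq_zero (S : Finset V) (e : E) (he : ¬ Cut root leaf S e) (s : Fin t) :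
    cc root leaf S e s = 0 := by
  simp only [Cut, not_not] at he
  rw [cc, sum_inc]
  have h2 : (1 : ZMod 2) + 1 = 0 := by decide
  by_cases h : root e ∈ S
  · simp [h, (he s).mpr h, h2]
  · have : leaf s e ∉ S := fun h' => h ((he s).mp h')
    simp [h, this]

theorem exists_cc_eq_one (S : Finset V) (e : E) (he : Cut root leaf S e) :
    ∃ s, cc root leaf S e s = 1 := by
  simp only [Cut] at he
  push Not at he
  obtain ⟨s, hs⟩ := he
  refine ⟨s, ?_⟩
  rw [cc, sum_inc]
  rcases hs with ⟨h1, h2⟩ | ⟨h1, h2⟩ <;> simp [h1, h2]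

theorem xi_of_not_cut (S : Finset V) (h : Lab E t n) (e : E) (he : ¬ Cut root leaf S e)
    (α : Fin n → Bool) : xi root leaf U S h e α = 1 := by
  simp only [xi, cc_eq_zero root leaf S e he, mul_zero, Finset.sum_const_zero, sgn_zero]

theorem xi_sq (S : Finset V) (h : Lab E t n) (e : E) (α : Fin n → Bool) :
    xi root leaf U S h e α ^ 2 = 1 := by
  rw [xi, sq, sgn_sq]

theorem xi_congr (S : Finset V) (h : Lab E t n) (e : E) (α β : Fin n → Bool)
    (hαβ : proj (U e) α = proj (U e) β) : xi root leaf U S h e α = xi root leaf U S h e β := by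
  rw [xi, xi, hαβ]

/-- Shift of the labels of `(e, s)`. -/
def shift (e : E) (s : Fin t) (u : (Fin n → Bool) → ZMod 2) : Lab E t n :=
  Pi.single e (Pi.single s u)

theorem xi_shift_self (S : Finset V) (h : Lab E t n) (e : E) (s : Fin t)
    (hs : cc root leaf S e s = 1) (u : (Fin n → Bool) → ZMod 2) (α : Fin n → Bool) :
    xi root leaf U S (h + shift e s u) e α =
      sgn (u (proj (U e) α)) * xi root leaf U S h e α := by
  have h1 : ∑ s', (h + shift e s u) e s' (proj (U e) α) * cc root leaf S e s' =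
      u (proj (U e) α) + ∑ s', h e s' (proj (U e) α) * cc root leaf S e s' := by
    have h2 : ∀ s', (h + shift e s u) e s' (proj (U e) α) * cc root leaf S e s' =
        (if s' = s then u (proj (U e) α) else 0) +
          h e s' (proj (U e) α) * cc root leaf S e s' := by
      intro s'
      simp only [shift, Pi.add_apply, Pi.single_eq_same]
      by_cases hs' : s' = s
      · subst hs'
        rw [Pi.single_eq_same, if_pos rfl, hs]
        ring
      · rw [Pi.single_eq_of_ne hs', if_neg hs']
        simp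
    simp only [h2, Finset.sum_add_distrib, Finset.sum_ite_eq', Finset.mem_univ, if_true]
  rw [xi, h1, sgn_add, xi]

theorem xi_shift_ne (S : Finset V) (h : Lab E t n) (e : E) (s : Fin t)
    (u : (Fin n → Bool) → ZMod 2) (e' : E) (he : e' ≠ e) (α : Fin n → Bool) :
    xi root leaf U S (h + shift e s u) e' α = xi root leaf U S h e' α := by
  have h1 : (h + shift e s u) e' = h e' := by
    simp [shift, Pi.single_eq_of_ne he]
  rw [xi, xi, h1]

open Classical in
/-- The sum of `|f α| |f β|` over the pairs of assignments that agree on all cut hyperedges in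
`D`. -/
noncomputable def agr (S : Finset V) (D : Finset E) (f : (Fin n → Bool) → ℝ) : ℝ :=
  ∑ q : (Fin n → Bool) × (Fin n → Bool),
    if ∀ e ∈ D, Cut root leaf S e → proj (U e) q.1 = proj (U e) q.2 then |f q.1| * |f q.2| else 0

theorem agr_nonneg (S : Finset V) (D : Finset E) (f : (Fin n → Bool) → ℝ) :
    0 ≤ agr root leaf U S D f := by
  unfold agr
  apply Finset.sum_nonneg
  intro q _
  split_ifs <;> positivity

theorem agr_insert_of_not_cut (S : Finset V) (D : Finset E) (e : E)
    (he : ¬ Cut root leaf S e) (f : (Fin n → Bool) → ℝ) :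
    agr root leaf U S (insert e D) f = agr root leaf U S D f := by
  classical
  unfold agr
  refine Finset.sum_congr rfl fun q _ => ?_
  have : (∀ e' ∈ insert e D, Cut root leaf S e' → proj (U e') q.1 = proj (U e') q.2) ↔
      ∀ e' ∈ D, Cut root leaf S e' → proj (U e') q.1 = proj (U e') q.2 := by
    simp only [Finset.mem_insert, forall_eq_or_imp]
    tauto
  simp only [this]

/-- The restriction of `f` to the assignments with pattern `w` on the hyperedge `e`. -/
noncomputable def res (e : E) (w : Fin n → Bool) (f : (Fin n → Bool) → ℝ) :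
    (Fin n → Bool) → ℝ := fun α => if proj (U e) α = w then f α else 0

theorem agr_insert_of_cut (S : Finset V) (D : Finset E) (e : E)
    (he : Cut root leaf S e) (f : (Fin n → Bool) → ℝ) :
    agr root leaf U S (insert e D) f =
      ∑ w : Fin n → Bool, agr root leaf U S D (res U e w f) := by
  classical
  unfold agr
  rw [Finset.sum_comm]
  refine Finset.sum_congr rfl fun q _ => ?_
  have h1 : ∀ w : Fin n → Bool,
      (if ∀ e' ∈ D, Cut root leaf S e' → proj (U e') q.1 = proj (U e') q.2 then
        |res U e w f q.1| * |res U e w f q.2| else 0) =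
      if w = proj (U e) q.1 then
        (if ∀ e' ∈ insert e D, Cut root leaf S e' → proj (U e') q.1 = proj (U e') q.2 then
          |f q.1| * |f q.2| else 0) else 0 := by
    intro w
    have h2 : (∀ e' ∈ insert e D, Cut root leaf S e' → proj (U e') q.1 = proj (U e') q.2) ↔
        proj (U e) q.1 = proj (U e) q.2 ∧
        ∀ e' ∈ D, Cut root leaf S e' → proj (U e') q.1 = proj (U e') q.2 := by
      simp only [Finset.mem_insert, forall_eq_or_imp]
      tauto
    simp only [h2, res]
    by_cases h3 : w = proj (U e) q.1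
    · subst h3
      by_cases h4 : proj (U e) q.1 = proj (U e) q.2
      · simp [h4]
      · have h5 : ¬ proj (U e) q.2 = proj (U e) q.1 := fun h => h4 h.symm
        simp [h4, h5]
    · have h5 : ¬ proj (U e) q.1 = w := fun h => h3 h.symm
      simp [h3, h5]
  simp only [h1, Finset.sum_ite_eq', Finset.mem_univ, if_true]

/-- The moment bound for a decoupled chaos. -/
theorem chaos (S : Finset V) (p : ℕ) (hp : 1 ≤ p) (D : Finset E) :
    ∀ f : (Fin n → Bool) → ℝ,
      ∑ h : Lab E t n, (∑ α, f α * ∏ e ∈ D, xi root leaf U S h e α) ^ (2 * p) ≤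
        Fintype.card (Lab E t n) * (((((2 * p : ℕ) : ℝ) ^ (2 * p)) ^ #D) *
          (agr root leaf U S D f) ^ p) := by
  classical
  set Cp : ℝ := ((2 * p : ℕ) : ℝ) ^ (2 * p) with hCp
  have hCp1 : 1 ≤ Cp := by
    apply one_le_pow₀
    exact_mod_cast (by omega : 1 ≤ 2 * p)
  induction D using Finset.induction_on with
  | empty =>
    intro f
    have h1 : agr root leaf U S ∅ f = (∑ α, |f α|) ^ 2 := by
      unfold agr
      simp only [Finset.notMem_empty, false_imp_iff, implies_true, if_true]
      rw [Fintype.sum_prod_type, sq, Finset.sum_mul_sum]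
    rw [h1]
    simp only [Finset.prod_empty, Finset.sum_const, nsmul_eq_mul, mul_one, Finset.card_empty,
      pow_zero, one_mul, Finset.card_univ]
    rw [← pow_mul, pow_mul, ← sq_abs, ← pow_mul]
    gcongr
    exact Finset.abs_sum_le_sum_abs _ _
  | insert e D he ih =>
    intro f
    have hprod : ∀ (h : Lab E t n) (α : Fin n → Bool),
        ∏ e' ∈ insert e D, xi root leaf U S h e' α =
          xi root leaf U S h e α * ∏ e' ∈ D, xi root leaf U S h e' α := fun h α =>
      Finset.prod_insert he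
    by_cases hcut : Cut root leaf S e
    · -- cut hyperedge
      obtain ⟨s, hs⟩ := exists_cc_eq_one root leaf S e hcut
      let g : Lab E t n → (Fin n → Bool) → ℝ := fun h w =>
        ∑ α, res U e w f α * ∏ e' ∈ D, xi root leaf U S h e' α
      let a : Lab E t n → (Fin n → Bool) → ℝ := fun h w =>
        ∑ α, res U e w f α * ∏ e' ∈ insert e D, xi root leaf U S h e' α
      have ha2 : ∀ h w, a h w ^ 2 = g h w ^ 2 := by
        intro h w
        have h1 : a h w = sgn (∑ s, h e s w * cc root leaf S e s) * g h w := by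
          simp only [a, g]
          rw [Finset.mul_sum]
          refine Finset.sum_congr rfl fun α _ => ?_
          rw [hprod]
          simp only [res]
          split_ifs with h2
          · rw [xi, h2]
            ring
          · ring
        rw [h1, mul_pow, sq (sgn _), sgn_sq, one_mul]
      have hshift : ∀ u : (Fin n → Bool) → ZMod 2,
          ∑ h : Lab E t n, (∑ α, f α * ∏ e' ∈ insert e D, xi root leaf U S h e' α) ^ (2 * p) =
          ∑ h : Lab E t n, (∑ w, sgn (u w) * a h w) ^ (2 * p) := by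
        intro u
        rw [← Equiv.sum_comp (Equiv.addRight (shift e s u : Lab E t n))]
        refine Finset.sum_congr rfl fun h _ => ?_
        congr 1
        have h1 : ∀ w, sgn (u w) * a h w =
            ∑ α, sgn (u w) * (res U e w f α * ∏ e' ∈ insert e D, xi root leaf U S h e' α) :=
          fun w => Finset.mul_sum _ _ _
        simp only [h1]
        rw [Finset.sum_comm]
        refine Finset.sum_congr rfl fun α _ => ?_
        rw [Finset.sum_eq_single (proj (U e) α)]
        · simp only [res, if_true]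
          rw [Equiv.coe_addRight, hprod, hprod, xi_shift_self root leaf U S h e s hs]
          have h2 : ∏ e' ∈ D, xi root leaf U S (h + shift e s u) e' α =
              ∏ e' ∈ D, xi root leaf U S h e' α := by
            refine Finset.prod_congr rfl fun e' he' => ?_
            apply xi_shift_ne
            rintro rfl
            exact he he'
          rw [h2]
          ring
        · intro w _ hw
          simp only [res, if_neg (Ne.symm hw), zero_mul, mul_zero]
        · intro h2
          exact absurd (Finset.mem_univ _) h2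
      have hcardW : (Fintype.card ((Fin n → Bool) → ZMod 2) : ℝ) =
          2 ^ Fintype.card (Fin n → Bool) := by
        rw [Fintype.card_fun, ZMod.card]
        push_cast
        rfl
      have h1 : (2:ℝ) ^ Fintype.card (Fin n → Bool) * ∑ h : Lab E t n,
          (∑ α, f α * ∏ e' ∈ insert e D, xi root leaf U S h e' α) ^ (2 * p) ≤
          2 ^ Fintype.card (Fin n → Bool) *
            (Cp * ∑ h : Lab E t n, (∑ w, g h w ^ 2) ^ p) := by
        calc (2:ℝ) ^ Fintype.card (Fin n → Bool) * ∑ h : Lab E t n,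
            (∑ α, f α * ∏ e' ∈ insert e D, xi root leaf U S h e' α) ^ (2 * p) =
            ∑ u : (Fin n → Bool) → ZMod 2, ∑ h : Lab E t n,
              (∑ α, f α * ∏ e' ∈ insert e D, xi root leaf U S h e' α) ^ (2 * p) := by
              rw [Finset.sum_const, nsmul_eq_mul, Finset.card_univ, hcardW]
          _ = ∑ u : (Fin n → Bool) → ZMod 2, ∑ h : Lab E t n,
              (∑ w, sgn (u w) * a h w) ^ (2 * p) :=
              Finset.sum_congr rfl fun u _ => hshift u
          _ = ∑ h : Lab E t n, ∑ u : (Fin n → Bool) → ZMod 2,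
              (∑ w, sgn (u w) * a h w) ^ (2 * p) := Finset.sum_comm
          _ ≤ ∑ h : Lab E t n, 2 ^ Fintype.card (Fin n → Bool) *
              (Cp * (∑ w, a h w ^ 2) ^ p) :=
              Finset.sum_le_sum fun h _ => khintchine (a h) p hp
          _ = _ := by
              simp only [ha2]
              rw [Finset.mul_sum, Finset.mul_sum]
      have h2 : ∑ h : Lab E t n,
          (∑ α, f α * ∏ e' ∈ insert e D, xi root leaf U S h e' α) ^ (2 * p) ≤
          Cp * ∑ h : Lab E t n, (∑ w, g h w ^ 2) ^ p :=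
        le_of_mul_le_mul_left h1 (by positivity)
      have h3 := mink (univ : Finset (Fin n → Bool)) (fun (h : Lab E t n) w => g h w ^ 2)
        (fun w => agr root leaf U S D (res U e w f))
        (Fintype.card (Lab E t n) * Cp ^ #D) p hp (fun h w => sq_nonneg _)
        (fun w _ => agr_nonneg root leaf U S D _) (fun w _ => by
          have h4 := ih (res U e w f)
          simp only [← pow_mul]
          rw [mul_assoc]
          exact h4)
      refine h2.trans ?_
      rw [agr_insert_of_cut root leaf U S D e hcut f, Finset.card_insert_of_notMem he]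
      calc Cp * ∑ h : Lab E t n, (∑ w, g h w ^ 2) ^ p ≤ Cp * (Fintype.card (Lab E t n) *
            Cp ^ #D * (∑ w, agr root leaf U S D (res U e w f)) ^ p) :=
            mul_le_mul_of_nonneg_left h3 (by positivity)
        _ = _ := by
            rw [pow_succ]
            ring
    · -- uncut hyperedge
      have h1 := ih f
      simp only [hprod, xi_of_not_cut root leaf U S _ e hcut, one_mul]
      rw [agr_insert_of_not_cut root leaf U S D e hcut f, Finset.card_insert_of_notMem he]
      refine h1.trans ?_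
      have h2 : Cp ^ #D ≤ Cp ^ (#D + 1) := pow_le_pow_right₀ hCp1 (by omega)
      have h3 := agr_nonneg root leaf U S D f
      gcongr

theorem card_agree_le (S : Finset V) (α : Fin n → Bool) :
    #(univ.filter (fun β : Fin n → Bool => ∀ i, i ∉ uncov root leaf U S → β i = α i)) ≤
      2 ^ #(uncov root leaf U S) := by
  classical
  set u := uncov root leaf U S with hu
  have h1 : 2 ^ #u = #(Fintype.piFinset (fun i : Fin n =>
      if i ∈ u then (univ : Finset Bool) else {α i})) := by
    rw [Fintype.card_piFinset]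
    have : ∀ i : Fin n, #(if i ∈ u then (univ : Finset Bool) else {α i}) =
        if i ∈ u then 2 else 1 := by
      intro i
      split_ifs <;> simp
    rw [Finset.prod_congr rfl (fun i _ => this i), Finset.prod_ite_mem, Finset.univ_inter,
      Finset.prod_const]
  rw [h1]
  apply Finset.card_le_card
  intro β hβ
  rw [Finset.mem_filter] at hβ
  rw [Fintype.mem_piFinset]
  intro i
  split_ifs with hi
  · exact Finset.mem_univ _
  · rw [Finset.mem_singleton]
    exact hβ.2 i hi

theorem agr_univ_le (S : Finset V) (f : (Fin n → Bool) → ℝ) :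
    agr root leaf U S univ f ≤ (∑ α, f α ^ 2) * 2 ^ #(uncov root leaf U S) := by
  classical
  set u := uncov root leaf U S with hu
  have h0 : ∀ q : (Fin n → Bool) × (Fin n → Bool),
      (if ∀ e ∈ (univ : Finset E), Cut root leaf S e → proj (U e) q.1 = proj (U e) q.2 then
        |f q.1| * |f q.2| else 0) ≤
      (if ∀ i, i ∉ u → q.2 i = q.1 i then f q.1 ^ 2 / 2 else 0) +
      (if ∀ i, i ∉ u → q.1 i = q.2 i then f q.2 ^ 2 / 2 else 0) := by
    rintro ⟨α, β⟩
    have hnn : 0 ≤ (if ∀ i, i ∉ u → β i = α i then f α ^ 2 / 2 else 0) +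
        (if ∀ i, i ∉ u → α i = β i then f β ^ 2 / 2 else 0) := by
      split_ifs <;> positivity
    show (if ∀ e ∈ (univ : Finset E), Cut root leaf S e → proj (U e) α = proj (U e) β then
        |f α| * |f β| else 0) ≤ (if ∀ i, i ∉ u → β i = α i then f α ^ 2 / 2 else 0) +
        (if ∀ i, i ∉ u → α i = β i then f β ^ 2 / 2 else 0)
    by_cases hq : ∀ e ∈ (univ : Finset E), Cut root leaf S e → proj (U e) α = proj (U e) β
    · have hag : ∀ i, i ∉ u → α i = β i := by
        intro i hi
        rw [hu, uncov, Finset.mem_filter] at hi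
        push Not at hi
        obtain ⟨e, hecut, hie⟩ := hi (Finset.mem_univ _)
        have hcut : Cut root leaf S e := by
          intro hall
          obtain ⟨s, hs⟩ := hecut
          have := hall s
          tauto
        exact proj_apply_of_mem (hq e (Finset.mem_univ _) hcut) hie
      have hag' : ∀ i, i ∉ u → β i = α i := fun i hi => (hag i hi).symm
      rw [if_pos hq, if_pos hag, if_pos hag']
      have := sq_nonneg (|f α| - |f β|)
      have e1 := sq_abs (f α)
      have e2 := sq_abs (f β)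
      nlinarith
    · rw [if_neg hq]
      exact hnn
  have hc : ∀ α : Fin n → Bool, (∑ β : Fin n → Bool,
      if ∀ i, i ∉ u → β i = α i then f α ^ 2 / 2 else 0) ≤ f α ^ 2 / 2 * 2 ^ #u := by
    intro α
    rw [← Finset.sum_filter, Finset.sum_const, nsmul_eq_mul, mul_comm]
    apply mul_le_mul_of_nonneg_left _ (by positivity)
    exact_mod_cast card_agree_le root leaf U S α
  unfold agr
  refine (Finset.sum_le_sum fun q _ => h0 q).trans ?_
  rw [Finset.sum_add_distrib, Fintype.sum_prod_type, Fintype.sum_prod_type_right]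
  calc (∑ α : Fin n → Bool, ∑ β : Fin n → Bool,
        (if ∀ i, i ∉ u → β i = α i then f α ^ 2 / 2 else 0)) +
      (∑ β : Fin n → Bool, ∑ α : Fin n → Bool,
        (if ∀ i, i ∉ u → α i = β i then f β ^ 2 / 2 else 0)) ≤
      (∑ α : Fin n → Bool, f α ^ 2 / 2 * 2 ^ #u) + (∑ β : Fin n → Bool, f β ^ 2 / 2 * 2 ^ #u) :=
        add_le_add (Finset.sum_le_sum fun α _ => hc α) (Finset.sum_le_sum fun β _ => hc β)
    _ = _ := by
        rw [← Finset.sum_mul, ← Finset.sum_div]
        ring

/-- The moment bound for an arbitrary function on the cube. -/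
theorem moment_gen (S : Finset V) (f : (Fin n → Bool) → ℝ) (p : ℕ) (hp : 1 ≤ p) :
    ∑ h : Lab E t n, (∑ α, f α * chr (yy root leaf U h 0 α) S) ^ (2 * p) ≤
      Fintype.card (Lab E t n) * ((((2 * p : ℕ) : ℝ) ^ (2 * p)) ^ Fintype.card E *
        ((∑ α, f α ^ 2) ^ p * 2 ^ (p * #(uncov root leaf U S)))) := by
  have h1 := chaos root leaf U S p hp univ f
  simp only [chr_eq_prod]
  refine h1.trans ?_
  rw [Finset.card_univ]
  have h2 := agr_univ_le root leaf U S f
  have h3 : (agr root leaf U S univ f) ^ p ≤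
      (∑ α, f α ^ 2) ^ p * 2 ^ (p * #(uncov root leaf U S)) := by
    refine (pow_le_pow_left₀ (agr_nonneg root leaf U S univ f) h2 p).trans (le_of_eq ?_)
    rw [mul_pow, ← pow_mul, mul_comm p]
  gcongr

end Labels

end Pool.Agent.Lib.MP_0e79d0_lcF
end

section

/-!
The lower bound for weighted partitions of unity by functions from a fixed family, each of them
supported on assignments that are refuted locally.
-/

namespace Pool.Agent.Lib.MP_0e79d0_lcF

open Finset Pool.Agent.Lib.MP_0e79d0_lc

section Labels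

variable {V E : Type} [Fintype V] [DecidableEq V] [Fintype E] [DecidableEq E] {t n : ℕ}
  (root : E → V) (leaf : Fin t → E → V) (U : E → Finset (Fin n))

/-- A choice of labels with small character sums against all members of a family. -/
theorem exists_labels (𝒮 : Finset (Finset V)) (𝓕 : Finset ((Fin n → Bool) → ℝ))
    (p u : ℕ) (hp : 1 ≤ p)
    (hu : ∀ S ∈ 𝒮, #(uncov root leaf U S) ≤ u) (K : ℝ) (hK0 : 0 ≤ K)
    (hK : (2:ℝ) ^ Fintype.card V * #𝓕 * ((((2 * p : ℕ) : ℝ) ^ (2 * p)) ^ Fintype.card E *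
      2 ^ (p * u)) ≤ K ^ p) :
    ∃ h : Lab E t n, ∀ S ∈ 𝒮, ∀ f ∈ 𝓕,
      (∑ α, f α * chr (yy root leaf U h 0 α) S) ^ 2 ≤ K * ∑ α, f α ^ 2 := by
  set W : ℝ := (2:ℝ) ^ Fintype.card V * #𝓕 * ((((2 * p : ℕ) : ℝ) ^ (2 * p)) ^ Fintype.card E *
      2 ^ (p * u)) with hW
  have hnn : ∀ (h : Lab E t n) (S : Finset V) (f : (Fin n → Bool) → ℝ),
      0 ≤ (∑ α, f α * chr (yy root leaf U h 0 α) S) ^ (2 * p) / (∑ α, f α ^ 2) ^ p := by
    intro h S f
    apply div_nonneg
    · rw [pow_mul]; positivity
    · positivity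
  have h1 : ∑ h : Lab E t n, ∑ S ∈ 𝒮, ∑ f ∈ 𝓕,
      (∑ α, f α * chr (yy root leaf U h 0 α) S) ^ (2 * p) / (∑ α, f α ^ 2) ^ p ≤
      ∑ h : Lab E t n, W := by
    rw [Finset.sum_comm]
    have h2 : ∀ S ∈ 𝒮, ∑ h : Lab E t n, ∑ f ∈ 𝓕,
        (∑ α, f α * chr (yy root leaf U h 0 α) S) ^ (2 * p) / (∑ α, f α ^ 2) ^ p ≤
        #𝓕 * (Fintype.card (Lab E t n) * ((((2 * p : ℕ) : ℝ) ^ (2 * p)) ^ Fintype.card E *
          2 ^ (p * u))) := by
      intro S hS
      rw [Finset.sum_comm]
      have h3 : ∀ f ∈ 𝓕, ∑ h : Lab E t n,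
          (∑ α, f α * chr (yy root leaf U h 0 α) S) ^ (2 * p) / (∑ α, f α ^ 2) ^ p ≤
          Fintype.card (Lab E t n) * ((((2 * p : ℕ) : ℝ) ^ (2 * p)) ^ Fintype.card E *
          2 ^ (p * u)) := by
        intro f _
        rw [← Finset.sum_div]
        have hpos : 0 ≤ ∑ α, f α ^ 2 := Finset.sum_nonneg fun α _ => sq_nonneg _
        rcases hpos.eq_or_lt with h0 | hpos
        · rw [← h0, zero_pow (by omega), div_zero]
          positivity
        rw [div_le_iff₀ (by positivity)]
        refine (moment_gen root leaf U S f p hp).trans ?_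
        have h4 : (2:ℝ) ^ (p * #(uncov root leaf U S)) ≤ 2 ^ (p * u) :=
          pow_le_pow_right₀ (by norm_num) (Nat.mul_le_mul_left p (hu S hS))
        calc (Fintype.card (Lab E t n) : ℝ) * ((((2 * p : ℕ) : ℝ) ^ (2 * p)) ^ Fintype.card E *
            ((∑ α, f α ^ 2) ^ p * 2 ^ (p * #(uncov root leaf U S)))) ≤
            (Fintype.card (Lab E t n) : ℝ) * ((((2 * p : ℕ) : ℝ) ^ (2 * p)) ^ Fintype.card E *
            ((∑ α, f α ^ 2) ^ p * 2 ^ (p * u))) := by gcongr
          _ = _ := by ring
      refine (Finset.sum_le_card_nsmul _ _ _ h3).trans (le_of_eq ?_)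
      rw [nsmul_eq_mul]
    refine (Finset.sum_le_card_nsmul _ _ _ h2).trans ?_
    rw [nsmul_eq_mul, Finset.sum_const, nsmul_eq_mul, Finset.card_univ, hW]
    have h3 : (#𝒮 : ℝ) ≤ 2 ^ Fintype.card V := by
      have : #𝒮 ≤ 2 ^ Fintype.card V := by
        rw [← Fintype.card_finset]
        exact Finset.card_le_univ 𝒮
      exact_mod_cast this
    calc (#𝒮 : ℝ) * (#𝓕 * (Fintype.card (Lab E t n) * ((((2 * p : ℕ) : ℝ) ^ (2 * p)) ^
        Fintype.card E * 2 ^ (p * u)))) ≤ 2 ^ Fintype.card V * (#𝓕 * (Fintype.card (Lab E t n) *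
        ((((2 * p : ℕ) : ℝ) ^ (2 * p)) ^ Fintype.card E * 2 ^ (p * u)))) := by gcongr
      _ = _ := by ring
  obtain ⟨h, _, hh⟩ := Finset.exists_le_of_sum_le (Finset.univ_nonempty) h1
  refine ⟨h, fun S hS f hf => ?_⟩
  have h5 : (∑ α, f α * chr (yy root leaf U h 0 α) S) ^ (2 * p) / (∑ α, f α ^ 2) ^ p ≤
      K ^ p := by
    refine le_trans ?_ (hh.trans hK)
    refine le_trans ?_ (Finset.single_le_sum (f := fun S => ∑ f ∈ 𝓕,
      (∑ α, f α * chr (yy root leaf U h 0 α) S) ^ (2 * p) / (∑ α, f α ^ 2) ^ p)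
      (fun S _ => Finset.sum_nonneg (fun f _ => hnn h S f)) hS)
    exact Finset.single_le_sum (f := fun f : (Fin n → Bool) → ℝ =>
      (∑ α, f α * chr (yy root leaf U h 0 α) S) ^ (2 * p) / (∑ α, f α ^ 2) ^ p)
      (fun f _ => hnn h S f) hf
  have hpos : 0 ≤ ∑ α, f α ^ 2 := Finset.sum_nonneg fun α _ => sq_nonneg _
  rcases hpos.eq_or_lt with h0 | hpos
  · have hf0 : ∀ α, f α = 0 := by
      intro α
      have := (Finset.sum_eq_zero_iff_of_nonneg (fun α _ => sq_nonneg (f α))).mp h0.symm α
        (Finset.mem_univ _)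
      exact pow_eq_zero_iff (two_ne_zero) |>.mp this
    simp [hf0]
  rw [div_le_iff₀ (by positivity)] at h5
  have h6 : ((∑ α, f α * chr (yy root leaf U h 0 α) S) ^ 2) ^ p ≤
      (K * ∑ α, f α ^ 2) ^ p := by
    rw [← pow_mul, mul_pow]
    exact h5
  exact (pow_le_pow_iff_left₀ (by positivity) (by positivity) (by omega)).mp h6

variable {k : ℕ}

/-- The lower bound for weighted partitions of unity by functions from `𝓕`. -/
theorem family_bound (𝓕 : Finset ((Fin n → Bool) → ℝ))
    (hk : ∀ j, #(nbv root leaf U j) ≤ k) (r s u p : ℕ) (m : ℝ)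
    (hr : r < Fintype.card V) (hp : 1 ≤ p)
    (hu : ∀ S ∈ middle V r s, #(uncov root leaf U S) ≤ u)
    (hs : ∀ J : Finset V, s < #J → m < #(J.biUnion (nbv root leaf U)))
    (K : ℝ) (hK0 : 0 ≤ K)
    (hK : (2:ℝ) ^ Fintype.card V * #𝓕 * ((((2 * p : ℕ) : ℝ) ^ (2 * p)) ^ Fintype.card E *
      2 ^ (p * u)) ≤ K ^ p) :
    ∃ F : Set (KClause k n), ¬ Satisfiable F ∧
      ∀ (ι : Type) [Fintype ι] (f : ι → (Fin n → Bool) → ℝ) (w : ι → ℝ),
        (∀ i, f i ∈ 𝓕) →
        (∀ α : Fin n → Bool, ∑ i, w i * f i α = 1) →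
        (∀ i, ∃ T : Set (KClause k n), T ⊆ F ∧ ((vars T).ncard : ℝ) ≤ m ∧
          ∀ α, f i α ≠ 0 → ∃ C ∈ T, ¬ SatisfiesClause α C) →
        ((2:ℝ) ^ n) ^ 2 ≤ (2 ^ Fintype.card V) ^ 2 * K *
          (Fintype.card ι * ∑ i, w i ^ 2 * ∑ α, f i α ^ 2) := by
  classical
  obtain ⟨h, hh⟩ := exists_labels root leaf U (middle V r s) 𝓕 p u hp hu K hK0 hK
  obtain ⟨b, hb, hmass⟩ := exists_shift root leaf U h r hr
  refine ⟨VF root leaf U hk h b, VF_unsat root leaf U hk h b hb, ?_⟩
  intro ι _ f w hf hw hT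
  set Λ : ι → ℝ := fun i => ∑ α, f i α * pseudo (yy root leaf U h b α) r with hΛ
  -- the total mass
  have h1 : ∑ α : Fin n → Bool, pseudo (yy root leaf U h b α) r = ∑ i, w i * Λ i := by
    calc ∑ α : Fin n → Bool, pseudo (yy root leaf U h b α) r =
        ∑ α : Fin n → Bool, ∑ i, w i * (f i α * pseudo (yy root leaf U h b α) r) := by
          apply Finset.sum_congr rfl
          intro α _
          have : ∀ i, w i * (f i α * pseudo (yy root leaf U h b α) r) =
              w i * f i α * pseudo (yy root leaf U h b α) r := fun i => by ring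
          simp only [this]
          rw [← Finset.sum_mul, hw α, one_mul]
      _ = ∑ i, ∑ α : Fin n → Bool, w i * (f i α * pseudo (yy root leaf U h b α) r) :=
          Finset.sum_comm
      _ = ∑ i, w i * Λ i := by
          apply Finset.sum_congr rfl
          intro i _
          rw [hΛ, Finset.mul_sum]
  -- the mass of a locally refuted function
  have h2 : ∀ i, (Λ i) ^ 2 ≤ (#(middle V r s) : ℝ) ^ 2 * (K * ∑ α, f i α ^ 2) := by
    intro i
    obtain ⟨T, hTF, hTm, hTα⟩ := hT i
    set J := insideV root leaf U (vars T) with hJ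
    have hJs : #J ≤ s := card_insideV_le root leaf U s m hs _ hTm
    have h3 : ∀ α, f i α ≠ 0 → ∃ j ∈ J, yy root leaf U h b α j = 1 := by
      intro α hα
      obtain ⟨C, hCT, hCα⟩ := hTα α hα
      obtain ⟨j, x, hC, hz⟩ := hTF hCT
      refine ⟨j, ?_, ?_⟩
      · rw [hJ, mem_insideV]
        intro v hv
        refine ⟨C, hCT, !(x v), ?_⟩
        rw [hC]
        exact Finset.mem_image.mpr ⟨v, hv, rfl⟩
      · rw [← hz]
        apply yy_congr
        intro v hv
        by_contra hne
        apply hCα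
        rw [hC, sat_clv]
        exact ⟨v, hv, hne⟩
    have h4 : Λ i = ∑ S ∈ middle V r s, (if r < #(S \ J) + #J then
        sgn (∑ j ∈ S, b j) * ∑ α, f i α * chr (yy root leaf U h 0 α) S else 0) := by
      calc Λ i = ∑ α, ∑ S ∈ middle V r s, (if r < #(S \ J) + #J then
            f i α * chr (yy root leaf U h b α) S else 0) := by
            rw [hΛ]
            apply Finset.sum_congr rfl
            intro α _
            by_cases hα : f i α = 0
            · rw [hα, zero_mul]
              symm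
              apply Finset.sum_eq_zero
              intro S _
              split_ifs <;> simp
            · rw [pseudo_eq _ r s J hJs (h3 α hα), Finset.mul_sum]
              apply Finset.sum_congr rfl
              intro S _
              split_ifs <;> simp
        _ = ∑ S ∈ middle V r s, ∑ α, (if r < #(S \ J) + #J then
            f i α * chr (yy root leaf U h b α) S else 0) := Finset.sum_comm
        _ = _ := by
            apply Finset.sum_congr rfl
            intro S _
            split_ifs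
            · rw [Finset.mul_sum]
              apply Finset.sum_congr rfl
              intro α _
              rw [chr_yy root leaf U h b α S]
              ring
            · simp
    rw [h4]
    calc (∑ S ∈ middle V r s, (if r < #(S \ J) + #J then
        sgn (∑ j ∈ S, b j) * ∑ α, f i α * chr (yy root leaf U h 0 α) S else 0)) ^ 2 ≤
        #(middle V r s) * ∑ S ∈ middle V r s, (if r < #(S \ J) + #J then
        sgn (∑ j ∈ S, b j) * ∑ α, f i α * chr (yy root leaf U h 0 α) S else 0) ^ 2 :=
          sq_sum_le_card_mul_sum_sq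
      _ ≤ #(middle V r s) * ∑ S ∈ middle V r s, (K * ∑ α, f i α ^ 2 : ℝ) := by
          apply mul_le_mul_of_nonneg_left _ (by positivity)
          apply Finset.sum_le_sum
          intro S hS
          have h5 := hh S hS (f i) (hf i)
          split_ifs
          · rw [mul_pow, sq (sgn _), sgn_sq, one_mul]
            exact h5
          · rw [sq, zero_mul]
            positivity
      _ = _ := by
          rw [Finset.sum_const, nsmul_eq_mul]
          ring
  have h3 : ((2:ℝ) ^ n) ^ 2 ≤ (∑ i, w i * Λ i) ^ 2 := by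
    rw [← h1]
    exact pow_le_pow_left₀ (by positivity) hmass 2
  have h4 : (#(middle V r s) : ℝ) ≤ 2 ^ Fintype.card V := by
    have : #(middle V r s) ≤ 2 ^ Fintype.card V := by
      rw [← Fintype.card_finset]
      exact Finset.card_le_univ _
    exact_mod_cast this
  calc ((2:ℝ) ^ n) ^ 2 ≤ (∑ i, w i * Λ i) ^ 2 := h3
    _ ≤ #(univ : Finset ι) * ∑ i, (w i * Λ i) ^ 2 := sq_sum_le_card_mul_sum_sq
    _ ≤ #(univ : Finset ι) * ∑ i, (w i ^ 2 * ((2 ^ Fintype.card V) ^ 2 *
        (K * ∑ α, f i α ^ 2))) := by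
        apply mul_le_mul_of_nonneg_left _ (by positivity)
        apply Finset.sum_le_sum
        intro i _
        rw [mul_pow]
        apply mul_le_mul_of_nonneg_left _ (sq_nonneg _)
        refine (h2 i).trans ?_
        gcongr
    _ = _ := by
        rw [Finset.card_univ]
        have : ∀ i, w i ^ 2 * ((2 ^ Fintype.card V) ^ 2 * (K * ∑ α, f i α ^ 2)) =
            ((2:ℝ) ^ Fintype.card V) ^ 2 * K * (w i ^ 2 * ∑ α, f i α ^ 2) := fun i => by ring
        simp only [this]
        rw [← Finset.mul_sum]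
        ring

end Labels

end Pool.Agent.Lib.MP_0e79d0_lcF
end

section

/-!
Search trees branching on arbitrary Boolean queries, and parity queries.
-/

namespace Pool.Agent.Lib.MP_0e79d0_lcF

open Pool.Agent.Lib.MP_0e79d0_lc

/-- Binary trees whose inner nodes are labelled by queries from `Q`. -/
inductive QTree (Q : Type) : Type
  | leaf : QTree Q
  | node (q : Q) (t₀ t₁ : QTree Q) : QTree Q

namespace QTree

variable {Q : Type}

/-- The size of a tree: its number of leaves. -/
def size : QTree Q → ℕ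
  | leaf => 1
  | node _ t₀ t₁ => t₀.size + t₁.size

/-- The depth of a tree. -/
def depth : QTree Q → ℕ
  | leaf => 0
  | node _ t₀ t₁ => max t₀.depth t₁.depth + 1

/-- `t.Refutes ev m F A`: the tree `t`, started with the assignments in `A`, sends each assignment
along the answers `ev q α` to its queries `q`, and for every leaf there is a set `T ⊆ F` of clauses
in which at most `m` variables occur, such that every assignment that reaches the leaf falsifies
some clause of `T`. -/
def Refutes {k n : ℕ} (ev : Q → (Fin n → Bool) → Bool) (m : ℝ) (F : Set (KClause k n)) :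
    QTree Q → Set (Fin n → Bool) → Prop
  | leaf, A => ∃ T : Set (KClause k n), T ⊆ F ∧ ((vars T).ncard : ℝ) ≤ m ∧
      ∀ α ∈ A, ∃ C ∈ T, ¬ SatisfiesClause α C
  | node q t₀ t₁, A => t₀.Refutes ev m F {α ∈ A | ev q α = false} ∧
      t₁.Refutes ev m F {α ∈ A | ev q α = true}

end QTree

/-- The parity query: whether `α` has an odd number of ones in `S`. -/
def parity {n : ℕ} (S : Finset (Fin n)) (α : Fin n → Bool) : Bool :=
  decide (Odd (S.filter (fun i => α i = true)).card)

end Pool.Agent.Lib.MP_0e79d0_lcF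
end
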