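import Mathlib
import Pool.Agent.Lib.MP_0e79d0_lc.Defs
import Pool.Agent.Lib.MP_0e79d0_lc.Main2
import Pool.Agent.Lib.MP_0e79d0_lcF.QTree
import Pool.Agent.Lib.MP_0e79d0_lc.TwoLevel
import Pool.Agent.Lib.MP_0e79d0_lcF.AffineDefs

section

/-!
The lower bound for (weighted) partitions of unity by functions from a fixed family.
-/

namespace Pool.Agent.Lib.MP_0e79d0_lcF

open Finset Pool.Agent.Lib.MP_0e79d0_lc

theorem family_struct : ∃ M₁ : ℕ, ∀ M ≥ M₁, 1 ≤ M → ∀ a g l : ℕ, 1 ≤ g →
    (4 * M * (2 ^ a * g) + 1) ^ (a + 4) < 4 ^ M → ∀ (n k : ℕ) (m : ℝ),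
    4 * M * (2 ^ a * g) ≤ n → 32 * ((a + 4) * (2 ^ a * g)) ≤ k →
    m + 4 * M * g ≤ 4 * M * (2 ^ a * g) →
    ∀ 𝓕 : Finset ((Fin n → Bool) → ℝ), #𝓕 ≤ 2 ^ (2 ^ l * n) →
    ∃ F : Set (KClause k n), ¬ Satisfiable F ∧
      ∀ (ι : Type) [Fintype ι] (f : ι → (Fin n → Bool) → ℝ) (w : ι → ℝ),
        (∀ i, f i ∈ 𝓕) →
        (∀ α : Fin n → Bool, ∑ i, w i * f i α = 1) →
        (∀ i, ∃ T : Set (KClause k n), T ⊆ F ∧ ((vars T).ncard : ℝ) ≤ m ∧
          ∀ α, f i α ≠ 0 → ∃ C ∈ T, ¬ SatisfiesClause α C) →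
        ((2:ℝ) ^ n) ^ 2 ≤ (2 ^ (2 * M)) ^ 2 *
          ((2:ℝ) ^ (((2 ^ l * n + 2 * M : ℕ) : ℝ) / 2 ^ (l + a)) *
          2 ^ (8 * M * (l + a + 1) + ((n - 4 * M * (2 ^ a * g)) + 4 * M * g))) *
          (Fintype.card ι * ∑ i, w i ^ 2 * ∑ α, f i α ^ 2) := by
  obtain ⟨M₁, hM₁⟩ := exists_structure
  refine ⟨M₁, fun M hM hM1 a g l hg hpoly n k m hn hk hm 𝓕 h𝓕 => ?_⟩
  replace hM₁ := hM₁ M hM hM1 a g hg hpoly
  clear hpoly
  obtain ⟨R, hR⟩ : ∃ R, 2 ^ a * g = R := ⟨_, rfl⟩
  have hRr : (2:ℝ) ^ a * g = R := by rw [← hR]; push_cast; ring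
  rw [hRr] at hm
  rw [hR] at hM₁ hn hk ⊢
  obtain ⟨σ, π, hσπ⟩ := hM₁
  have hcardI : Fintype.card ((Fin (2 * M) × Fin (2 ^ 1)) × Fin R) = 4 * M * R := by
    simp only [Fintype.card_prod, Fintype.card_fin]
    ring
  have hcardE : Fintype.card (Fin (2 * M) × Fin (2 ^ 1)) = 4 * M := by
    simp only [Fintype.card_prod, Fintype.card_fin]; ring
  obtain ⟨ε⟩ : Nonempty (((Fin (2 * M) × Fin (2 ^ 1)) × Fin R) ↪ Fin n) := by
    rw [Function.Embedding.nonempty_iff_card_le, hcardI, Fintype.card_fin]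
    exact hn
  let root : Fin (2 * M) × Fin (2 ^ 1) → Fin (2 * M) := fun e => e.1
  let leaf : Fin 15 → Fin (2 * M) × Fin (2 ^ 1) → Fin (2 * M) := fun s e => (σ s e).1
  let U : Fin (2 * M) × Fin (2 ^ 1) → Finset (Fin n) := fun e =>
    (univ.filter (fun i : (Fin (2 * M) × Fin (2 ^ 1)) × Fin R => ∃ s, (π s i).1 = e)).map ε
  have hmemU : ∀ e i, ε i ∈ U e ↔ ∃ s, (π s i).1 = e := by
    intro e i
    simp only [U, Finset.mem_map', mem_filter, mem_univ, true_and]
  have hcardU : ∀ e, #(U e) ≤ (a + 4) * R := by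
    intro e
    simp only [U, Finset.card_map]
    exact card_slot_le R (a + 4) π e
  -- widths
  have hk' : ∀ j, #(nbv root leaf U j) ≤ k := by
    intro j
    refine le_trans ?_ hk
    have hE : #(univ.filter (fun e => root e = j ∨ ∃ s, leaf s e = j)) ≤ 32 := by
      have hsub : (univ.filter (fun e => root e = j ∨ ∃ s, leaf s e = j)) ⊆
          (univ.filter (fun e : Fin (2 * M) × Fin (2 ^ 1) => e.1 = j)) ∪
          (univ.filter (fun e : Fin (2 * M) × Fin (2 ^ 1) => ∃ s, (σ s e).1 = j)) := by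
        intro e he
        simp only [mem_filter, mem_univ, true_and, mem_union] at he ⊢
        exact he
      refine (Finset.card_le_card hsub).trans ((Finset.card_union_le _ _).trans ?_)
      have h1 := card_fst_fiber (2 * M) (2 ^ 1) j
      have h2 := card_slot_le (2 ^ 1) 15 σ j
      omega
    refine Finset.card_biUnion_le.trans ?_
    refine (Finset.sum_le_card_nsmul _ _ ((a + 4) * R) (fun e _ => hcardU e)).trans ?_
    rw [smul_eq_mul]
    exact Nat.mul_le_mul_right _ hE
  -- uncovered bits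
  have hu : ∀ S ∈ middle (Fin (2 * M)) M (M / 2), #(uncov root leaf U S) ≤
      (n - 4 * M * R) + 4 * M * g := by
    intro S hS
    have hS' := (Finset.mem_filter.mp hS).2
    have h1 := hσπ S (by omega) hS'.1
    have hsub : uncov root leaf U S ⊆ ((univ : Finset ((Fin (2 * M) × Fin (2 ^ 1)) ×
        Fin R)).map ε)ᶜ ∪ ((univ.filter (fun i : (Fin (2 * M) × Fin (2 ^ 1)) × Fin R =>
          ∀ s s', ((σ s' (π s i).1).1 ∈ S ↔ (π s i).1.1 ∈ S))).map ε) := by
      intro v hv
      rw [Finset.mem_union]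
      by_cases hv' : v ∈ (univ : Finset ((Fin (2 * M) × Fin (2 ^ 1)) × Fin R)).map ε
      · right
        rw [Finset.mem_map] at hv'
        obtain ⟨i, _, rfl⟩ := hv'
        rw [Finset.mem_map']
        rw [Finset.mem_filter]
        refine ⟨Finset.mem_univ _, fun s => ?_⟩
        by_contra hcon
        have h2 := (Finset.mem_filter.mp hv).2 (π s i).1 hcon
        exact h2 ((hmemU _ _).mpr ⟨s, rfl⟩)
      · left
        exact Finset.mem_compl.mpr hv'
    refine (Finset.card_le_card hsub).trans ((Finset.card_union_le _ _).trans ?_)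
    rw [Finset.card_compl, Finset.card_map, Finset.card_map, Finset.card_univ, hcardI,
      Fintype.card_fin]
    omega
  -- touched bits
  have hs : ∀ J : Finset (Fin (2 * M)), M / 2 < #J → m < #(J.biUnion (nbv root leaf U)) := by
    intro J hJ
    have hun : #(univ.filter (fun i : (Fin (2 * M) × Fin (2 ^ 1)) × Fin R =>
        ε i ∉ J.biUnion (nbv root leaf U))) < 4 * M * g := by
      have hout : ∀ i : (Fin (2 * M) × Fin (2 ^ 1)) × Fin R, ε i ∉ J.biUnion (nbv root leaf U) →
          ∀ s, (π s i).1.1 ∉ J ∧ ∀ s', (σ s' (π s i).1).1 ∉ J := by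
        intro i hi s
        rw [Finset.mem_biUnion] at hi
        push Not at hi
        have hUi : ε i ∈ U (π s i).1 := (hmemU _ _).mpr ⟨s, rfl⟩
        constructor
        · intro h
          apply hi _ h
          rw [nbv, Finset.mem_biUnion]
          exact ⟨(π s i).1, Finset.mem_filter.mpr ⟨Finset.mem_univ _, Or.inl rfl⟩, hUi⟩
        · intro s' h
          apply hi _ h
          rw [nbv, Finset.mem_biUnion]
          exact ⟨(π s i).1, Finset.mem_filter.mpr ⟨Finset.mem_univ _, Or.inr ⟨s', rfl⟩⟩, hUi⟩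
      by_cases hJM : #J ≤ M
      · refine lt_of_le_of_lt (Finset.card_le_card ?_) (hσπ J (by omega) hJM)
        intro i hi
        rw [Finset.mem_filter] at hi ⊢
        refine ⟨hi.1, fun s s' => ?_⟩
        have h1 := hout i hi.2 s
        exact ⟨fun h => absurd h (h1.2 s'), fun h => absurd h h1.1⟩
      · have hc : #(Jᶜ) ≤ M := by
          rw [Finset.card_compl, Fintype.card_fin]
          omega
        obtain ⟨S, hS, hSc⟩ := Finset.exists_superset_card_eq hc
          (by rw [Fintype.card_fin]; omega)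
        refine lt_of_le_of_lt (Finset.card_le_card ?_) (hσπ S (by omega) hSc.le)
        intro i hi
        rw [Finset.mem_filter] at hi ⊢
        refine ⟨hi.1, fun s s' => ?_⟩
        have h1 := hout i hi.2 s
        exact ⟨fun _ => hS (Finset.mem_compl.mpr h1.1),
          fun _ => hS (Finset.mem_compl.mpr (h1.2 s'))⟩
    have h3 : #(univ.filter (fun i : (Fin (2 * M) × Fin (2 ^ 1)) × Fin R =>
        ε i ∈ J.biUnion (nbv root leaf U))) ≤ #(J.biUnion (nbv root leaf U)) := by
      apply Finset.card_le_card_of_injOn (fun i => ε i)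
      · intro i hi
        rw [Finset.mem_coe, Finset.mem_filter] at hi
        exact hi.2
      · intro i _ i' _ h
        exact ε.injective h
    have h4 := Finset.card_filter_add_card_filter_not
      (s := (univ : Finset ((Fin (2 * M) × Fin (2 ^ 1)) × Fin R)))
      (fun i => ε i ∈ J.biUnion (nbv root leaf U))
    rw [Finset.card_univ, hcardI] at h4
    have h5 : 4 * M * R < #(J.biUnion (nbv root leaf U)) + 4 * M * g := by omega
    have h6 : ((4 * M * R : ℕ) : ℝ) < ((#(J.biUnion (nbv root leaf U)) + 4 * M * g : ℕ) : ℝ) := by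
      exact_mod_cast h5
    push_cast at h6
    linarith
  have hmain := family_bound root leaf U 𝓕 hk' M (M / 2) ((n - 4 * M * R) + 4 * M * g)
    (2 ^ (l + a)) m (by rw [Fintype.card_fin]; omega) Nat.one_le_two_pow hu hs
    ((2:ℝ) ^ (((2 ^ l * n + 2 * M : ℕ) : ℝ) / 2 ^ (l + a)) *
          2 ^ (8 * M * (l + a + 1) + ((n - 4 * M * R) + 4 * M * g))) (by positivity)
    (by
      rw [Fintype.card_fin, hcardE]
      have e1 : ((2:ℝ) ^ (((2 ^ l * n + 2 * M : ℕ) : ℝ) / 2 ^ (l + a))) ^ (2 ^ (l + a)) =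
          2 ^ (2 ^ l * n + 2 * M) := by
        rw [← Real.rpow_natCast ((2:ℝ) ^ (((2 ^ l * n + 2 * M : ℕ) : ℝ) / 2 ^ (l + a)))
          (2 ^ (l + a)), ← Real.rpow_mul (by norm_num)]
        have : ((2 ^ l * n + 2 * M : ℕ) : ℝ) / 2 ^ (l + a) * ((2 ^ (l + a) : ℕ) : ℝ) =
            ((2 ^ l * n + 2 * M : ℕ) : ℝ) := by
          rw [Nat.cast_pow, Nat.cast_ofNat]
          field_simp
        rw [this, Real.rpow_natCast]
      have e2 : (((2 * 2 ^ (l + a) : ℕ) : ℝ) ^ (2 * 2 ^ (l + a))) ^ (4 * M) =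
          (2:ℝ) ^ (8 * M * (l + a + 1) * 2 ^ (l + a)) := by
        have : ((2 * 2 ^ (l + a) : ℕ) : ℝ) = 2 ^ (l + a + 1) := by
          push_cast; ring
        rw [this, ← pow_mul, ← pow_mul]
        congr 1
        ring
      have e3 : (#𝓕 : ℝ) ≤ 2 ^ (2 ^ l * n) := by exact_mod_cast h𝓕
      rw [mul_pow, e1, e2]
      calc (2:ℝ) ^ (2 * M) * #𝓕 * (2 ^ (8 * M * (l + a + 1) * 2 ^ (l + a)) *
          2 ^ (2 ^ (l + a) * ((n - 4 * M * R) + 4 * M * g))) ≤
          (2:ℝ) ^ (2 * M) * 2 ^ (2 ^ l * n) * (2 ^ (8 * M * (l + a + 1) * 2 ^ (l + a)) *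
          2 ^ (2 ^ (l + a) * ((n - 4 * M * R) + 4 * M * g))) := by gcongr
        _ = _ := by
          rw [← pow_mul, ← pow_add, ← pow_add, ← pow_add, ← pow_add]
          congr 1
          ring)
  rw [Fintype.card_fin] at hmain
  exact hmain

theorem family_bound_nat (a : ℕ) (ha : 1 ≤ a) : ∃ n₀ : ℕ, ∀ n ≥ n₀, ∀ l k : ℕ, l ^ 2 ≤ n →
    32 * ((a + 4) * (2 ^ a * (l + a + 1))) ≤ k → ∀ (m : ℝ), m ≤ (1 - 5 / 2 ^ a : ℝ) * n →
    ∀ 𝓕 : Finset ((Fin n → Bool) → ℝ), #𝓕 ≤ 2 ^ (2 ^ l * n) →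
    ∃ F : Set (KClause k n), ¬ Satisfiable F ∧
      ∀ (ι : Type) [Fintype ι] (f : ι → (Fin n → Bool) → ℝ) (w : ι → ℝ),
        (∀ i, f i ∈ 𝓕) →
        (∀ α : Fin n → Bool, ∑ i, w i * f i α = 1) →
        (∀ i, ∃ T : Set (KClause k n), T ⊆ F ∧ ((vars T).ncard : ℝ) ≤ m ∧
          ∀ α, f i α ≠ 0 → ∃ C ∈ T, ¬ SatisfiesClause α C) →
        (2:ℝ) ^ m * 2 ^ n ≤ Fintype.card ι * ∑ i, w i ^ 2 * ∑ α, f i α ^ 2 := by
  obtain ⟨M₁, hM₁⟩ := family_struct
  obtain ⟨M₂, hM₂⟩ := eventually_poly_lt (8 * 2 ^ a) (2 * (a + 4))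
  set c := 8 * 2 ^ a with hc
  have hcpos : 0 < c := by positivity
  obtain ⟨S, hS⟩ : ∃ S, S = c * (M₁ + M₂ + 1) + (a + 1) + 32 * (2 ^ a * 2 ^ a) := ⟨_, rfl⟩
  refine ⟨S * S, fun n hn l k hl hk m hm 𝓕 h𝓕 => ?_⟩
  -- the square root
  obtain ⟨s, hs⟩ : ∃ s, s = Nat.sqrt n := ⟨_, rfl⟩
  have hSs : S ≤ s := by rw [hs]; exact Nat.le_sqrt.mpr hn
  have hs1 : s * s ≤ n := by rw [hs]; exact Nat.sqrt_le n
  have hs2 : n < (s + 1) * (s + 1) := by rw [hs]; exact Nat.lt_succ_sqrt n
  have hls : l ≤ s := by rw [hs, Nat.le_sqrt, ← sq]; exact hl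
  have has : a + 1 ≤ s := by
    have : a + 1 ≤ S := by rw [hS]; omega
    omega
  have hcs : c * (M₁ + M₂ + 1) ≤ s := by
    have : c * (M₁ + M₂ + 1) ≤ S := by rw [hS]; omega
    omega
  have h32 : 32 * (2 ^ a * 2 ^ a) ≤ s := by
    have : 32 * (2 ^ a * 2 ^ a) ≤ S := by rw [hS]; omega
    omega
  have hspos : 0 < s := by omega
  obtain ⟨g, hg⟩ : ∃ g, g = l + a + 1 := ⟨_, rfl⟩
  have hg2s : g ≤ 2 * s := by omega
  have hg2 : 2 ≤ g := by omega
  set R := 2 ^ a * g with hR
  have hRpos : 0 < R := by positivity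
  have hRs : 4 * R ≤ c * s := by
    calc 4 * R = 4 * 2 ^ a * g := by rw [hR]; ring
      _ ≤ 4 * 2 ^ a * (2 * s) := Nat.mul_le_mul_left _ hg2s
      _ = c * s := by rw [hc]; ring
  set M := n / (4 * R) with hMdef
  have hM2 : s / c ≤ M := by
    rw [hMdef, Nat.le_div_iff_mul_le (by positivity)]
    calc s / c * (4 * R) ≤ s / c * (c * s) := Nat.mul_le_mul_left _ hRs
      _ = (s / c * c) * s := by ring
      _ ≤ s * s := Nat.mul_le_mul_right _ (Nat.div_mul_le_self s c)
      _ ≤ n := hs1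
  have hsc : M₁ + M₂ + 1 ≤ s / c := by
    rw [Nat.le_div_iff_mul_le hcpos, mul_comm]
    exact hcs
  have hMn : 4 * M * R ≤ n := by
    have := Nat.div_mul_le_self n (4 * R)
    rw [← hMdef] at this
    calc 4 * M * R = M * (4 * R) := by ring
      _ ≤ n := this
  have hpoly : (4 * M * R + 1) ^ (a + 4) < 4 ^ M := by
    have h1 := hM₂ (s / c) (by omega)
    have h2 : s + 1 ≤ 2 * (s / c) * c + 1 := by
      have h3 := Nat.lt_div_mul_add (a := s) hcpos
      have h4 : c ≤ s / c * c := by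
        calc c = 1 * c := (one_mul c).symm
          _ ≤ s / c * c := Nat.mul_le_mul_right _ (by omega)
      have h5 : 2 * (s / c) * c = s / c * c + s / c * c := by ring
      omega
    calc (4 * M * R + 1) ^ (a + 4) ≤ (n + 1) ^ (a + 4) := Nat.pow_le_pow_left (by omega) _
      _ ≤ ((s + 1) * (s + 1)) ^ (a + 4) := Nat.pow_le_pow_left (by omega) _
      _ = (s + 1) ^ (2 * (a + 4)) := by rw [← sq, ← pow_mul]
      _ ≤ (2 * (s / c) * c + 1) ^ (2 * (a + 4)) := Nat.pow_le_pow_left h2 _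
      _ < 4 ^ (s / c) := h1
      _ ≤ 4 ^ M := Nat.pow_le_pow_right (by norm_num) hM2
  have hMn' : n < 4 * M * R + 4 * R := by
    have := Nat.lt_div_mul_add (a := n) (b := 4 * R) (by positivity)
    rw [← hMdef] at this
    calc n < M * (4 * R) + 4 * R := this
      _ = _ := by ring
  have hbig' : 16 * (2 ^ a * g) * 2 ^ a ≤ n := by
    calc 16 * (2 ^ a * g) * 2 ^ a = 16 * (2 ^ a * 2 ^ a) * g := by ring
      _ ≤ 16 * (2 ^ a * 2 ^ a) * (2 * s) := Nat.mul_le_mul_left _ hg2s
      _ = 32 * (2 ^ a * 2 ^ a) * s := by ring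
      _ ≤ s * s := Nat.mul_le_mul_right _ h32
      _ ≤ n := hs1
  -- real versions
  set L : ℝ := 2 ^ a with hL
  have hL1 : 2 ≤ L := by
    calc (2:ℝ) = 2 ^ 1 := by norm_num
      _ ≤ 2 ^ a := pow_le_pow_right₀ (by norm_num) ha
  have hL0 : 0 < L := by linarith
  have hgr : (2:ℝ) ≤ g := by exact_mod_cast hg2
  have hRR : (R:ℝ) = L * g := by rw [hR, hL]; push_cast; ring
  have hMnR : 4 * M * (L * g) ≤ (n:ℝ) := by
    rw [← hRR]; exact_mod_cast hMn
  have hMnR' : (n:ℝ) < 4 * M * (L * g) + 4 * (L * g) := by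
    rw [← hRR]; exact_mod_cast hMn'
  have hbig : 16 * (L * g) * L ≤ n := by
    rw [hL]
    exact_mod_cast hbig'
  have hM0 : (0:ℝ) ≤ M := by positivity
  -- the quantities in units of n / L
  set ν : ℝ := (n:ℝ) / L with hν
  have hnν : (n:ℝ) = ν * L := by rw [hν]; field_simp
  have hq : 4 * (M:ℝ) * g ≤ ν := by
    rw [hν, le_div_iff₀ hL0]; linarith
  have hM3 : 4 * (M:ℝ) ≤ ν / 2 := by
    have : 4 * (M:ℝ) * 2 ≤ 4 * (M:ℝ) * g := by
      apply mul_le_mul_of_nonneg_left _ (by positivity)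
      linarith
    linarith
  have hRn : 4 * (L * g) ≤ ν / 4 := by
    rw [hν, div_div, le_div_iff₀ (by positivity)]
    linarith
  have hm' : m ≤ n - 5 * ν := by
    refine hm.trans (le_of_eq ?_)
    rw [hν]; ring
  obtain ⟨F, hF, hmain⟩ := hM₁ M (by omega) (by omega) a g l (by omega) hpoly n k m hMn
    (by rw [hg]; exact hk) (by rw [← hL]; linarith) 𝓕 h𝓕
  refine ⟨F, hF, fun ι _ f w hf hw hT => ?_⟩
  have h1 := hmain ι f w hf hw hT
  set X : ℝ := Fintype.card ι * ∑ i, w i ^ 2 * ∑ α, f i α ^ 2 with hX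
  -- rewrite everything as real powers of two
  have e1 : ((2:ℝ) ^ n) ^ 2 = (2:ℝ) ^ (2 * (n:ℝ)) := by
    rw [← pow_mul, ← Real.rpow_natCast]
    congr 1
    push_cast; ring
  have e2 : ((2:ℝ) ^ (2 * M)) ^ 2 = (2:ℝ) ^ (4 * (M:ℝ)) := by
    rw [← pow_mul, ← Real.rpow_natCast]
    congr 1
    push_cast; ring
  have e3 : (2:ℝ) ^ (8 * M * (l + a + 1) + ((n - 4 * M * R) + 4 * M * g)) =
      (2:ℝ) ^ (8 * (M:ℝ) * g + ((n - 4 * M * (L * g)) + 4 * M * g)) := by
    rw [← Real.rpow_natCast, ← hg]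
    congr 1
    push_cast [Nat.cast_sub hMn]
    rw [hRR]
  have e4 : ((2 ^ l * n + 2 * M : ℕ) : ℝ) / 2 ^ (l + a) = n / L + 2 * M / 2 ^ (l + a) := by
    push_cast
    rw [add_div, pow_add, ← hL]
    congr 1
    field_simp
  rw [e1, e2, e3, e4, ← Real.rpow_add (by norm_num), ← Real.rpow_add (by norm_num)] at h1
  have hML : 2 * (M:ℝ) / 2 ^ (l + a) ≤ ν / 8 := by
    have h2 : (2:ℝ) ≤ 2 ^ (l + a) := by
      calc (2:ℝ) = 2 ^ 1 := by norm_num
        _ ≤ 2 ^ (l + a) := pow_le_pow_right₀ (by norm_num) (by omega)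
    calc 2 * (M:ℝ) / 2 ^ (l + a) ≤ 2 * M / 2 := by gcongr
      _ = M := by ring
      _ ≤ ν / 8 := by linarith
  have hexp : (2:ℝ) ^ m * 2 ^ n * (2:ℝ) ^ (4 * (M:ℝ) + ((n:ℝ) / L + 2 * (M:ℝ) / 2 ^ (l + a) +
      (8 * (M:ℝ) * g + ((n - 4 * M * (L * g)) + 4 * M * g)))) ≤ (2:ℝ) ^ (2 * (n:ℝ)) := by
    rw [← Real.rpow_natCast 2 n, ← Real.rpow_add (by norm_num), ← Real.rpow_add (by norm_num)]
    apply Real.rpow_le_rpow_of_exponent_le (by norm_num)
    rw [← hν]
    linarith
  have h2 := hexp.trans h1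
  rw [mul_comm (_ * _) ((2:ℝ) ^ (4 * (M:ℝ) + _))] at h2
  exact le_of_mul_le_mul_left h2 (by positivity)

end Pool.Agent.Lib.MP_0e79d0_lcF
end

section

/-!
Final forms: families of functions, trees with queries from a fixed list, parity decision trees.
-/

namespace Pool.Agent.Lib.MP_0e79d0_lcF

open Finset Pool.Agent.Lib.MP_0e79d0_lc

/-- The lower bound for a fixed family of functions, with real parameters. -/
theorem family_main (ε : ℝ) (hε : 0 < ε) (hε1 : ε ≤ 1) : ∃ n₀ : ℕ, ∀ n ≥ n₀, ∀ (L : ℝ) (k : ℕ),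
    1 ≤ L → (Real.logb 2 L + 1) ^ 2 ≤ n →
    320 / ε * (Real.logb 2 (10 / ε) + 4) * (Real.logb 2 (10 / ε) + Real.logb 2 L + 2) ≤ k →
    ∀ 𝓕 : Finset ((Fin n → Bool) → ℝ), (#𝓕 : ℝ) ≤ (2:ℝ) ^ (L * n) →
    ∃ F : Set (KClause k n), ¬ Satisfiable F ∧
      ∀ (ι : Type) [Fintype ι] (f : ι → (Fin n → Bool) → ℝ) (w : ι → ℝ),
        (∀ i, f i ∈ 𝓕) →
        (∀ α : Fin n → Bool, ∑ i, w i * f i α = 1) →
        (∀ i, ∃ T : Set (KClause k n), T ⊆ F ∧ ((vars T).ncard : ℝ) ≤ (1 - ε) * n ∧
          ∀ α, f i α ≠ 0 → ∃ C ∈ T, ¬ SatisfiesClause α C) →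
        (2:ℝ) ^ ((1 - ε) * n) * 2 ^ n ≤ Fintype.card ι * ∑ i, w i ^ 2 * ∑ α, f i α ^ 2 := by
  have h5 : 1 < 5 / ε := by rw [lt_div_iff₀ hε]; linarith
  have hlog5 : 0 < Real.logb 2 (5 / ε) := Real.logb_pos (by norm_num) h5
  obtain ⟨a, ha⟩ : ∃ a : ℕ, a = ⌈Real.logb 2 (5 / ε)⌉₊ := ⟨_, rfl⟩
  have ha1 : 1 ≤ a := by
    rw [ha]
    exact Nat.one_le_iff_ne_zero.mpr (by
      intro h
      rw [Nat.ceil_eq_zero] at h
      linarith)
  have hale : Real.logb 2 (5 / ε) ≤ a := by rw [ha]; exact Nat.le_ceil _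
  have halt : (a:ℝ) < Real.logb 2 (10 / ε) := by
    have h1 : (a:ℝ) < Real.logb 2 (5 / ε) + 1 := by rw [ha]; exact Nat.ceil_lt_add_one hlog5.le
    have h2 : Real.logb 2 (10 / ε) = Real.logb 2 (5 / ε) + 1 := by
      have : (10 / ε : ℝ) = 5 / ε * 2 := by ring
      rw [this, Real.logb_mul (by positivity) (by norm_num), Real.logb_self_eq_one (by norm_num)]
    linarith
  have h2a : 5 / ε ≤ 2 ^ a := by
    rw [← Real.rpow_natCast, ← Real.logb_le_iff_le_rpow (by norm_num) (by positivity)]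
    exact hale
  have h2a' : (2:ℝ) ^ a ≤ 10 / ε := by
    rw [← Real.rpow_natCast, ← Real.le_logb_iff_rpow_le (by norm_num) (by positivity)]
    exact halt.le
  have hεa : 5 / 2 ^ a ≤ ε := by
    rw [div_le_iff₀ (by positivity)]
    rw [div_le_iff₀ hε] at h2a
    linarith
  obtain ⟨n₀, hn₀⟩ := family_bound_nat a ha1
  refine ⟨n₀, fun n hn L k hL hLn hk 𝓕 h𝓕 => ?_⟩
  have hlogL : 0 ≤ Real.logb 2 L := Real.logb_nonneg (by norm_num) hL
  obtain ⟨l, hl⟩ : ∃ l : ℕ, l = ⌈Real.logb 2 L⌉₊ := ⟨_, rfl⟩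
  have hlle : Real.logb 2 L ≤ l := by rw [hl]; exact Nat.le_ceil _
  have hllt : (l:ℝ) ≤ Real.logb 2 L + 1 := by
    rw [hl]; exact (Nat.ceil_lt_add_one hlogL).le
  have h2l : L ≤ 2 ^ l := by
    rw [← Real.rpow_natCast, ← Real.logb_le_iff_le_rpow (by norm_num) (by positivity)]
    exact hlle
  refine hn₀ n hn l k ?_ ?_ ((1 - ε) * n) ?_ 𝓕 ?_
  · have : ((l ^ 2 : ℕ) : ℝ) ≤ n := by
      push_cast
      refine le_trans ?_ hLn
      exact pow_le_pow_left₀ (by positivity) hllt 2
    exact_mod_cast this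
  · have : ((32 * ((a + 4) * (2 ^ a * (l + a + 1))) : ℕ) : ℝ) ≤ k := by
      refine le_trans ?_ hk
      push_cast
      have h6 : (0:ℝ) ≤ a := by positivity
      have h7 : 0 ≤ Real.logb 2 (10 / ε) + 4 := by linarith
      calc (32:ℝ) * ((a + 4) * (2 ^ a * (l + a + 1))) ≤
          32 * ((Real.logb 2 (10 / ε) + 4) * (10 / ε *
            (Real.logb 2 L + 1 + Real.logb 2 (10 / ε) + 1))) := by gcongr
        _ = _ := by ring
    exact_mod_cast this
  · apply mul_le_mul_of_nonneg_right _ (by positivity)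
    linarith
  · have : (#𝓕 : ℝ) ≤ ((2 ^ (2 ^ l * n) : ℕ) : ℝ) := by
      refine h𝓕.trans ?_
      push_cast
      rw [← Real.rpow_natCast 2 (2 ^ l * n)]
      apply Real.rpow_le_rpow_of_exponent_le (by norm_num)
      push_cast
      apply mul_le_mul_of_nonneg_right h2l (by positivity)
    exact_mod_cast this

section Trees

variable {Q : Type} {n k : ℕ}

/-- The leaf regions of a tree. -/
def regions (ev : Q → (Fin n → Bool) → Bool) :
    QTree Q → Finset (Fin n → Bool) → List (Finset (Fin n → Bool))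
  | .leaf, A => [A]
  | .node q t₀ t₁, A => regions ev t₀ (A.filter (fun α => ev q α = false)) ++
      regions ev t₁ (A.filter (fun α => ev q α = true))

theorem length_regions (ev : Q → (Fin n → Bool) → Bool) (t : QTree Q) :
    ∀ A, (regions ev t A).length = t.size := by
  induction t with
  | leaf => intro A; rfl
  | node q t₀ t₁ h₀ h₁ =>
    intro A
    rw [regions, List.length_append, h₀, h₁, QTree.size]

theorem sum_regions (ev : Q → (Fin n → Bool) → Bool) (t : QTree Q) (α : Fin n → Bool) :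
    ∀ A, ((regions ev t A).map (fun B => if α ∈ B then (1:ℝ) else 0)).sum =
      if α ∈ A then 1 else 0 := by
  induction t with
  | leaf => intro A; simp [regions]
  | node q t₀ t₁ h₀ h₁ =>
    intro A
    rw [regions, List.map_append, List.sum_append, h₀, h₁]
    simp only [Finset.mem_filter]
    by_cases hA : α ∈ A
    · rcases h : ev q α with _ | _ <;> simp [hA]
    · simp [hA]

theorem refutes_regions (ev : Q → (Fin n → Bool) → Bool) (m : ℝ) (F : Set (KClause k n))
    (t : QTree Q) : ∀ A : Finset (Fin n → Bool), t.Refutes ev m F (A : Set (Fin n → Bool)) →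
      ∀ B ∈ regions ev t A, ∃ T : Set (KClause k n), T ⊆ F ∧ ((vars T).ncard : ℝ) ≤ m ∧
        ∀ α ∈ B, ∃ C ∈ T, ¬ SatisfiesClause α C := by
  induction t with
  | leaf =>
    intro A h B hB
    simp only [regions, List.mem_singleton] at hB
    subst hB
    exact h
  | node q t₀ t₁ h₀ h₁ =>
    intro A h B hB
    rw [regions, List.mem_append] at hB
    rcases hB with hB | hB
    · refine h₀ _ ?_ B hB
      have := h.1
      convert this using 1
      ext α
      simp
    · refine h₁ _ ?_ B hB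
      have := h.2
      convert this using 1
      ext α
      simp

/-- The lower bound for trees all of whose leaf regions belong to a fixed family. -/
theorem tree_bound (ev : Q → (Fin n → Bool) → Bool) (𝒜 : Finset (Finset (Fin n → Bool)))
    (m : ℝ) (F : Set (KClause k n))
    (hF : ∀ (ι : Type) [Fintype ι] (f : ι → (Fin n → Bool) → ℝ) (w : ι → ℝ),
        (∀ i, f i ∈ 𝒜.image (fun A α => if α ∈ A then (1:ℝ) else 0)) →
        (∀ α : Fin n → Bool, ∑ i, w i * f i α = 1) →
        (∀ i, ∃ T : Set (KClause k n), T ⊆ F ∧ ((vars T).ncard : ℝ) ≤ m ∧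
          ∀ α, f i α ≠ 0 → ∃ C ∈ T, ¬ SatisfiesClause α C) →
        (2:ℝ) ^ m * 2 ^ n ≤ Fintype.card ι * ∑ i, w i ^ 2 * ∑ α, f i α ^ 2)
    (t : QTree Q) (h𝒜 : ∀ B ∈ regions ev t univ, B ∈ 𝒜)
    (ht : t.Refutes ev m F Set.univ) : (2:ℝ) ^ m ≤ t.size := by
  set l := regions ev t univ with hl
  have hlen : l.length = t.size := length_regions ev t univ
  have h1 := hF (Fin l.length) (fun i α => if α ∈ l.get i then (1:ℝ) else 0) (fun _ => 1)
    (fun i => Finset.mem_image.mpr ⟨l.get i, h𝒜 _ (List.get_mem l i), rfl⟩)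
    (fun α => by
      have h2 := sum_regions ev t α univ
      rw [← hl] at h2
      simp only [Finset.mem_univ, if_true] at h2
      simp only [one_mul]
      refine Eq.trans ?_ h2
      exact (Fin.sum_univ_fun_getElem l (fun B => if α ∈ B then (1:ℝ) else 0)))
    (fun i => by
      obtain ⟨T, hT, hTm, hTα⟩ := refutes_regions ev m F t univ (by simpa using ht) (l.get i)
        (List.get_mem l i)
      refine ⟨T, hT, hTm, fun α hα => hTα α ?_⟩
      by_contra hcon
      exact hα (if_neg hcon))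
  have h3 : ∑ i : Fin l.length, (1:ℝ) ^ 2 * ∑ α : Fin n → Bool,
      (if α ∈ l.get i then (1:ℝ) else 0) ^ 2 = 2 ^ n := by
    have e1 : ∀ (i : Fin l.length) (α : Fin n → Bool), (if α ∈ l.get i then (1:ℝ) else 0) ^ 2 =
        if α ∈ l.get i then (1:ℝ) else 0 := by
      intro i α
      split_ifs <;> norm_num
    simp only [e1, one_pow, one_mul]
    rw [Finset.sum_comm]
    have e2 : ∀ α : Fin n → Bool, ∑ i : Fin l.length, (if α ∈ l.get i then (1:ℝ) else 0) = 1 := by
      intro α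
      have h2 := sum_regions ev t α univ
      rw [← hl] at h2
      simp only [Finset.mem_univ, if_true] at h2
      refine Eq.trans ?_ h2
      exact (Fin.sum_univ_fun_getElem l (fun B => if α ∈ B then (1:ℝ) else 0))
    simp only [e2]
    rw [Finset.sum_const, nsmul_eq_mul, mul_one, Finset.card_univ, Fintype.card_fun,
      Fintype.card_bool, Fintype.card_fin]
    push_cast
    ring
  rw [h3, Fintype.card_fin, hlen] at h1
  exact le_of_mul_le_mul_right h1 (by positivity)

/-- The set of assignments that give the listed answers. -/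
def reg (ev : Q → (Fin n → Bool) → Bool) (c : List (Q × Bool)) : Finset (Fin n → Bool) :=
  univ.filter (fun α => ∀ p ∈ c, ev p.1 α = p.2)

theorem mem_regions (ev : Q → (Fin n → Bool) → Bool) (t : QTree Q) :
    ∀ A, ∀ B ∈ regions ev t A, ∃ c : List (Q × Bool), c.length ≤ t.depth ∧
      B = A.filter (fun α => ∀ p ∈ c, ev p.1 α = p.2) := by
  induction t with
  | leaf =>
    intro A B hB
    simp only [regions, List.mem_singleton] at hB
    subst hB
    exact ⟨[], le_refl _, by simp⟩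
  | node q t₀ t₁ h₀ h₁ =>
    intro A B hB
    rw [regions, List.mem_append] at hB
    rcases hB with hB | hB
    · obtain ⟨c, hc, rfl⟩ := h₀ _ B hB
      refine ⟨(q, false) :: c, ?_, ?_⟩
      · rw [List.length_cons, QTree.depth]
        exact Nat.succ_le_succ (hc.trans (le_max_left _ _))
      · ext α
        simp only [Finset.mem_filter, List.forall_mem_cons]
        tauto
    · obtain ⟨c, hc, rfl⟩ := h₁ _ B hB
      refine ⟨(q, true) :: c, ?_, ?_⟩
      · rw [List.length_cons, QTree.depth]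
        exact Nat.succ_le_succ (hc.trans (le_max_right _ _))
      · ext α
        simp only [Finset.mem_filter, List.forall_mem_cons]
        tauto

theorem card_image_ind_le (𝒜 : Finset (Finset (Fin n → Bool))) :
    #(𝒜.image (fun A α => if α ∈ A then (1:ℝ) else 0)) ≤ #𝒜 := Finset.card_image_le

/-- The family of all sets described by a fixed list of queries. -/
theorem card_all_regions [Fintype Q] (ev : Q → (Fin n → Bool) → Bool) :
    ∃ 𝒜 : Finset (Finset (Fin n → Bool)), #𝒜 ≤ 2 ^ (2 * Fintype.card Q) ∧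
      ∀ c : List (Q × Bool), reg ev c ∈ 𝒜 := by
  classical
  refine ⟨univ.image (fun s : Q → Finset Bool => univ.filter (fun α => ∀ q, ev q α ∈ s q)),
    ?_, ?_⟩
  · refine Finset.card_image_le.trans ?_
    rw [Finset.card_univ, Fintype.card_fun, Fintype.card_finset, Fintype.card_bool, pow_mul]
  · intro c
    refine Finset.mem_image.mpr
      ⟨fun q => univ.filter (fun b => ∀ p ∈ c, p.1 = q → b = p.2), Finset.mem_univ _, ?_⟩
    ext α
    simp only [reg, Finset.mem_filter, Finset.mem_univ, true_and]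
    constructor
    · intro h p hp
      exact h p.1 p hp rfl
    · rintro h q p hp rfl
      exact h p hp

/-- The family of all sets described by at most `D` queries from a fixed list. -/
theorem card_depth_regions [Fintype Q] (ev : Q → (Fin n → Bool) → Bool) (D : ℕ) :
    ∃ 𝒜 : Finset (Finset (Fin n → Bool)), #𝒜 ≤ (2 * Fintype.card Q + 1) ^ D ∧
      ∀ c : List (Q × Bool), c.length ≤ D → reg ev c ∈ 𝒜 := by
  classical
  refine ⟨univ.image (fun s : Fin D → Option (Q × Bool) => univ.filter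
    (fun α => ∀ i p, s i = some p → ev p.1 α = p.2)), ?_, ?_⟩
  · refine Finset.card_image_le.trans (le_of_eq ?_)
    rw [Finset.card_univ, Fintype.card_fun, Fintype.card_option, Fintype.card_prod,
      Fintype.card_bool, Fintype.card_fin, mul_comm]
  · intro cs hc
    refine Finset.mem_image.mpr ⟨fun i => cs[(i : ℕ)]?, Finset.mem_univ _, ?_⟩
    ext α
    simp only [reg, Finset.mem_filter, Finset.mem_univ, true_and]
    constructor
    · intro h p hp
      obtain ⟨i, hi, rfl⟩ := List.mem_iff_getElem.mp hp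
      exact h ⟨i, by omega⟩ _ (List.getElem?_eq_getElem hi)
    · intro h i p hp
      exact h p (List.mem_of_getElem? hp)

/-- The lower bound for trees with queries from a fixed list. -/
theorem tree_main (ε : ℝ) (hε : 0 < ε) (hε1 : ε ≤ 1) : ∃ n₀ : ℕ, ∀ n ≥ n₀, ∀ (L : ℝ) (k : ℕ),
    1 ≤ L → (Real.logb 2 L + 2) ^ 2 ≤ n →
    320 / ε * (Real.logb 2 (10 / ε) + 4) * (Real.logb 2 (10 / ε) + Real.logb 2 L + 3) ≤ k →
    ∀ (Q : Type) [Fintype Q] (ev : Q → (Fin n → Bool) → Bool), (Fintype.card Q : ℝ) ≤ L * n →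
    ∃ F : Set (KClause k n), ¬ Satisfiable F ∧
      ∀ t : QTree Q, t.Refutes ev ((1 - ε) * n) F Set.univ →
        (2:ℝ) ^ ((1 - ε) * n) ≤ t.size := by
  obtain ⟨n₀, hn₀⟩ := family_main ε hε hε1
  refine ⟨n₀, fun n hn L k hL hLn hk Q _ ev hQ => ?_⟩
  have hlog : Real.logb 2 (2 * L) = Real.logb 2 L + 1 := by
    rw [Real.logb_mul (by norm_num) (by linarith), Real.logb_self_eq_one (by norm_num)]
    ring
  obtain ⟨𝒜, h𝒜, h𝒜'⟩ := card_all_regions ev
  obtain ⟨F, hF, hF'⟩ := hn₀ n hn (2 * L) k (by linarith)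
    (by
      rw [hlog]
      convert hLn using 2
      ring)
    (by
      rw [hlog]
      convert hk using 2
      ring)
    (𝒜.image (fun A α => if α ∈ A then (1:ℝ) else 0))
    (by
      have h1 : (#(𝒜.image (fun A α => if α ∈ A then (1:ℝ) else 0)) : ℝ) ≤
          ((2 ^ (2 * Fintype.card Q) : ℕ) : ℝ) := by
        exact_mod_cast (card_image_ind_le 𝒜).trans h𝒜
      refine h1.trans ?_
      push_cast
      rw [← Real.rpow_natCast 2 (2 * Fintype.card Q)]
      apply Real.rpow_le_rpow_of_exponent_le (by norm_num)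
      push_cast
      linarith)
  refine ⟨F, hF, fun t ht => tree_bound ev 𝒜 _ F hF' t ?_ ht⟩
  intro B hB
  obtain ⟨c, _, rfl⟩ := mem_regions ev t univ B hB
  exact h𝒜' c

/-- The lower bound for trees of bounded depth. -/
theorem depth_main (ε : ℝ) (hε : 0 < ε) (hε1 : ε ≤ 1) : ∃ n₀ : ℕ, ∀ n ≥ n₀, ∀ (L : ℝ) (k : ℕ),
    1 ≤ L → (Real.logb 2 L + 1) ^ 2 ≤ n →
    320 / ε * (Real.logb 2 (10 / ε) + 4) * (Real.logb 2 (10 / ε) + Real.logb 2 L + 2) ≤ k →
    ∀ (Q : Type) [Fintype Q] (ev : Q → (Fin n → Bool) → Bool) (D : ℕ),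
    ((2 * Fintype.card Q + 1 : ℝ)) ^ D ≤ (2:ℝ) ^ (L * n) →
    ∃ F : Set (KClause k n), ¬ Satisfiable F ∧
      ∀ t : QTree Q, t.depth ≤ D → t.Refutes ev ((1 - ε) * n) F Set.univ →
        (2:ℝ) ^ ((1 - ε) * n) ≤ t.size := by
  obtain ⟨n₀, hn₀⟩ := family_main ε hε hε1
  refine ⟨n₀, fun n hn L k hL hLn hk Q _ ev D hQ => ?_⟩
  obtain ⟨𝒜, h𝒜, h𝒜'⟩ := card_depth_regions ev D
  obtain ⟨F, hF, hF'⟩ := hn₀ n hn L k hL hLn hk
    (𝒜.image (fun A α => if α ∈ A then (1:ℝ) else 0))
    (by
      have h1 : (#(𝒜.image (fun A α => if α ∈ A then (1:ℝ) else 0)) : ℝ) ≤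
          (((2 * Fintype.card Q + 1) ^ D : ℕ) : ℝ) := by
        exact_mod_cast (card_image_ind_le 𝒜).trans h𝒜
      refine h1.trans ?_
      push_cast
      exact hQ)
  refine ⟨F, hF, fun t htD ht => tree_bound ev 𝒜 _ F hF' t ?_ ht⟩
  intro B hB
  obtain ⟨c, hc, rfl⟩ := mem_regions ev t univ B hB
  exact h𝒜' c (hc.trans htD)

end Trees

section Parity

variable {n k : ℕ}

/-- The value of the affine functional `w` at `α`. -/
def aff (w : (Fin n → ZMod 2) × ZMod 2) (α : Fin n → Bool) : ZMod 2 :=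
  ∑ i, w.1 i * (if α i then 1 else 0) + w.2

theorem aff_add (w w' : (Fin n → ZMod 2) × ZMod 2) (α : Fin n → Bool) :
    aff (w + w') α = aff w α + aff w' α := by
  simp only [aff, Prod.fst_add, Prod.snd_add, Pi.add_apply, add_mul, Finset.sum_add_distrib]
  ring

theorem aff_smul (c : ZMod 2) (w : (Fin n → ZMod 2) × ZMod 2) (α : Fin n → Bool) :
    aff (c • w) α = c * aff w α := by
  simp only [aff, Prod.smul_fst, Prod.smul_snd, Pi.smul_apply, smul_eq_mul, mul_add,
    Finset.mul_sum, mul_assoc]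

/-- The affine functional of the equation `parity S α = b`. -/
def funOf (p : Finset (Fin n) × Bool) : (Fin n → ZMod 2) × ZMod 2 :=
  (fun i => if i ∈ p.1 then 1 else 0, if p.2 then 1 else 0)

theorem aff_funOf (p : Finset (Fin n) × Bool) (α : Fin n → Bool) :
    aff (funOf p) α = 0 ↔ parity p.1 α = p.2 := by
  have h1 : ∑ i, (if i ∈ p.1 then (1 : ZMod 2) else 0) * (if α i then 1 else 0) =
      ((p.1.filter (fun i => α i = true)).card : ZMod 2) := by
    have : ∀ i, (if i ∈ p.1 then (1 : ZMod 2) else 0) * (if α i then 1 else 0) =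
        if i ∈ p.1 ∧ α i = true then 1 else 0 := by
      intro i
      by_cases h1 : i ∈ p.1 <;> by_cases h2 : α i = true <;> simp [h1, h2]
    simp only [this]
    rw [Finset.sum_boole]
    congr 2
    ext i
    simp
  rw [aff, funOf]
  simp only
  rw [h1, parity]
  have key : (((p.1.filter (fun i => α i = true)).card : ZMod 2) = 1) ↔
      Odd (p.1.filter (fun i => α i = true)).card := ZMod.natCast_eq_one_iff_odd
  have key0 : (((p.1.filter (fun i => α i = true)).card : ZMod 2) = 0) ↔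
      ¬ Odd (p.1.filter (fun i => α i = true)).card := by
    rw [Nat.not_odd_iff_even]
    exact ZMod.natCast_eq_zero_iff_even
  rcases hb : p.2 with _ | _
  · simp only [Bool.false_eq_true, if_false, add_zero, decide_eq_false_iff_not]
    exact key0
  · simp only [if_true, decide_eq_true_eq]
    rw [← key]
    generalize (((p.1.filter (fun i => α i = true)).card : ZMod 2)) = x
    revert x
    decide

/-- The solution set of a linear system. -/
noncomputable def sol (W : Submodule (ZMod 2) ((Fin n → ZMod 2) × ZMod 2)) :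
    Finset (Fin n → Bool) :=
  open Classical in univ.filter (fun α => ∀ w ∈ W, aff w α = 0)

theorem reg_parity (c : List (Finset (Fin n) × Bool)) :
    reg parity c = sol (Submodule.span (ZMod 2) {w | ∃ p ∈ c, funOf p = w}) := by
  classical
  ext α
  simp only [reg, sol, Finset.mem_filter, Finset.mem_univ, true_and]
  constructor
  · intro h w hw
    refine Submodule.span_induction (p := fun w _ => aff w α = 0) ?_ ?_ ?_ ?_ hw
    · rintro w ⟨p, hp, rfl⟩
      exact (aff_funOf p α).mpr (h p hp)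
    · simp [aff]
    · intro x y _ _ hx hy
      rw [aff_add, hx, hy, add_zero]
    · intro a x _ hx
      rw [aff_smul, hx, mul_zero]
  · intro h p hp
    exact (aff_funOf p α).mp (h _ (Submodule.subset_span ⟨p, hp, rfl⟩))

theorem exists_span (W : Submodule (ZMod 2) ((Fin n → ZMod 2) × ZMod 2)) :
    ∃ v : Fin (n + 1) → (Fin n → ZMod 2) × ZMod 2, Submodule.span (ZMod 2) (Set.range v) = W := by
  classical
  have hfin : Module.finrank (ZMod 2) W ≤ n + 1 := by
    refine (Submodule.finrank_le W).trans (le_of_eq ?_)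
    rw [Module.finrank_prod, Module.finrank_fin_fun, Module.finrank_self]
  let b := Module.finBasis (ZMod 2) W
  refine ⟨fun i => if h : (i : ℕ) < Module.finrank (ZMod 2) W then
    (b ⟨i, h⟩ : (Fin n → ZMod 2) × ZMod 2) else 0, ?_⟩
  apply le_antisymm
  · rw [Submodule.span_le]
    rintro _ ⟨i, rfl⟩
    simp only
    split_ifs with h
    · exact (b ⟨i, h⟩).2
    · exact W.zero_mem
  · intro w hw
    have h1 : (⟨w, hw⟩ : W) ∈ Submodule.span (ZMod 2) (Set.range b) := by
      rw [b.span_eq]; trivial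
    have h2 : W.subtype ⟨w, hw⟩ ∈ Submodule.map W.subtype (Submodule.span (ZMod 2) (Set.range b)) :=
      Submodule.mem_map_of_mem h1
    rw [Submodule.map_span] at h2
    refine Submodule.span_mono ?_ h2
    rintro _ ⟨_, ⟨j, rfl⟩, rfl⟩
    refine ⟨⟨j, lt_of_lt_of_le j.2 hfin⟩, ?_⟩
    simp

/-- The family of affine subspaces. -/
theorem card_parity_regions (n : ℕ) :
    ∃ 𝒜 : Finset (Finset (Fin n → Bool)), #𝒜 ≤ 2 ^ ((n + 1) * (n + 1)) ∧
      ∀ c : List (Finset (Fin n) × Bool), reg parity c ∈ 𝒜 := by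
  classical
  refine ⟨univ.image (fun v : Fin (n + 1) → (Fin n → ZMod 2) × ZMod 2 =>
    sol (Submodule.span (ZMod 2) (Set.range v))), ?_, ?_⟩
  · refine Finset.card_image_le.trans (le_of_eq ?_)
    rw [Finset.card_univ, Fintype.card_fun, Fintype.card_prod, Fintype.card_fun, ZMod.card,
      Fintype.card_fin, Fintype.card_fin, ← pow_succ, ← pow_mul]
  · intro c
    rw [reg_parity]
    obtain ⟨v, hv⟩ := exists_span (Submodule.span (ZMod 2) {w | ∃ p ∈ c, funOf p = w})
    exact Finset.mem_image.mpr ⟨v, Finset.mem_univ _, by rw [hv]⟩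

/-- The lower bound for parity decision trees. -/
theorem parity_main (ε : ℝ) (hε : 0 < ε) (hε1 : ε ≤ 1) : ∃ n₀ : ℕ, ∀ n ≥ n₀, ∀ k : ℕ,
    320 / ε * (Real.logb 2 (10 / ε) + 4) * (Real.logb 2 (10 / ε) + Real.logb 2 n + 3) ≤ k →
    ∃ F : Set (KClause k n), ¬ Satisfiable F ∧
      ∀ t : QTree (Finset (Fin n)), t.Refutes parity ((1 - ε) * n) F Set.univ →
        (2:ℝ) ^ ((1 - ε) * n) ≤ t.size := by
  obtain ⟨n₀, hn₀⟩ := family_main ε hε hε1
  have hlim : ∃ n₁ : ℕ, ∀ n ≥ n₁, (Real.logb 2 n + 2) ^ 2 ≤ (n : ℝ) := by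
    refine ⟨128, fun n hn => ?_⟩
    have hn0 : n ≠ 0 := by omega
    obtain ⟨m, hm⟩ : ∃ m, m = Nat.log 2 n := ⟨_, rfl⟩
    have hm7 : 7 ≤ m := by
      rw [hm]
      exact (Nat.le_log_iff_pow_le (by norm_num) hn0).mpr (by norm_num; exact hn)
    have h1 : 2 ^ m ≤ n := by rw [hm]; exact Nat.pow_log_le_self 2 hn0
    have h2 : n < 2 ^ (m + 1) := by rw [hm]; exact Nat.lt_pow_succ_log_self (by norm_num) n
    have h3 : (m + 3) ^ 2 ≤ 2 ^ m := by
      clear hm h1 h2
      induction m, hm7 using Nat.le_induction with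
      | base => norm_num
      | succ m hm ih =>
        rw [pow_succ 2 m]
        nlinarith
    have hnr : (0:ℝ) < n := by positivity
    have h4 : Real.logb 2 n ≤ m + 1 := by
      rw [Real.logb_le_iff_le_rpow (by norm_num) hnr]
      have : ((n : ℕ) : ℝ) ≤ ((2 ^ (m + 1) : ℕ) : ℝ) := by exact_mod_cast h2.le
      refine this.trans (le_of_eq ?_)
      rw [← Nat.cast_succ, Real.rpow_natCast]
      push_cast
      rfl
    have h5 : 0 ≤ Real.logb 2 n := Real.logb_nonneg (by norm_num) (by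
      have : (1:ℝ) ≤ n := by exact_mod_cast (by omega : 1 ≤ n)
      exact this)
    calc (Real.logb 2 n + 2) ^ 2 ≤ ((m:ℝ) + 3) ^ 2 :=
          pow_le_pow_left₀ (by linarith) (by linarith) 2
      _ ≤ 2 ^ m := by exact_mod_cast h3
      _ ≤ n := by exact_mod_cast h1
  obtain ⟨n₁, hn₁⟩ := hlim
  refine ⟨max (max n₀ n₁) 3, fun n hn k hk => ?_⟩
  have hn3 : 3 ≤ n := (le_max_right _ _).trans hn
  have hn3' : (3:ℝ) ≤ n := by exact_mod_cast hn3
  have hlog : Real.logb 2 (2 * n) = Real.logb 2 n + 1 := by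
    rw [Real.logb_mul (by norm_num) (by linarith), Real.logb_self_eq_one (by norm_num)]
    ring
  obtain ⟨𝒜, h𝒜, h𝒜'⟩ := card_parity_regions n
  obtain ⟨F, hF, hF'⟩ := hn₀ n ((le_max_left _ _).trans ((le_max_left _ _).trans hn))
    (2 * n) k (by linarith)
    (by
      rw [hlog]
      convert hn₁ n ((le_max_right _ _).trans ((le_max_left _ _).trans hn)) using 2
      ring)
    (by
      rw [hlog]
      convert hk using 2
      ring)
    (𝒜.image (fun A α => if α ∈ A then (1:ℝ) else 0))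
    (by
      have h1 : (#(𝒜.image (fun A α => if α ∈ A then (1:ℝ) else 0)) : ℝ) ≤
          ((2 ^ ((n + 1) * (n + 1)) : ℕ) : ℝ) := by
        exact_mod_cast (card_image_ind_le 𝒜).trans h𝒜
      refine h1.trans ?_
      push_cast
      rw [← Real.rpow_natCast 2 ((n + 1) * (n + 1))]
      apply Real.rpow_le_rpow_of_exponent_le (by norm_num)
      push_cast
      nlinarith)
  refine ⟨F, hF, fun t ht => tree_bound parity 𝒜 _ F hF' t ?_ ht⟩
  intro B hB
  obtain ⟨c, _, rfl⟩ := mem_regions parity t univ B hB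
  exact h𝒜' c

end Parity

end Pool.Agent.Lib.MP_0e79d0_lcF
end

section

/-!
Partitions of the cube into affine subspaces. The decomposition of an affine subspace into
characters on a subcube or into points is a suggestion of helper7.
-/

namespace Pool.Agent.Lib.MP_0e79d0_lcF

open Finset Pool.Agent.Lib.MP_0e79d0_lc

variable {n k : ℕ}

/-- The coordinatewise sum of three assignments. -/
def xor3 (x y z : Fin n → Bool) : Fin n → Bool := fun i => xor (xor (x i) (y i)) (z i)

theorem aff_xor3 (w : (Fin n → ZMod 2) × ZMod 2) (x y z : Fin n → Bool) :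
    aff w (xor3 x y z) = aff w x + aff w y + aff w z := by
  have h2 : (1 : ZMod 2) + 1 = 0 := by decide
  have h1 : ∀ i, w.1 i * (if xor3 x y z i then (1 : ZMod 2) else 0) =
      w.1 i * (if x i then 1 else 0) + w.1 i * (if y i then 1 else 0) +
        w.1 i * (if z i then 1 else 0) := by
    intro i
    have hx : x i = true ∨ x i = false := by cases x i <;> simp
    have hy : y i = true ∨ y i = false := by cases y i <;> simp
    have hz : z i = true ∨ z i = false := by cases z i <;> simp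
    have h4 : w.1 i + w.1 i = 0 := by
      calc w.1 i + w.1 i = w.1 i * (1 + 1) := by ring
        _ = 0 := by rw [h2, mul_zero]
    rcases hx with hx | hx <;> rcases hy with hy | hy <;> rcases hz with hz | hz <;>
      simp [xor3, hx, hy, hz, h4]
  have h3 : w.2 + w.2 = 0 := by
    calc w.2 + w.2 = w.2 * (1 + 1) := by ring
      _ = 0 := by rw [h2, mul_zero]
  unfold aff
  rw [Finset.sum_congr rfl (fun i _ => h1 i), Finset.sum_add_distrib, Finset.sum_add_distrib]
  linear_combination (-1 : ZMod 2) * h3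

theorem xor3_xor3 (x y z : Fin n → Bool) : xor3 x y (xor3 x y z) = z := by
  funext i
  simp only [xor3]
  cases x i <;> cases y i <;> cases z i <;> rfl

/-- A functional that is not constant on an affine set halves it. -/
theorem card_half (A : Finset (Fin n → Bool)) (hA : ∀ x ∈ A, ∀ y ∈ A, ∀ z ∈ A, xor3 x y z ∈ A)
    (w : (Fin n → ZMod 2) × ZMod 2) (x : Fin n → Bool) (hx : x ∈ A) (hx0 : aff w x = 0)
    (y : Fin n → Bool) (hy : y ∈ A) (hy0 : aff w y ≠ 0) :
    2 * #(A.filter (fun α => aff w α = 0)) = #A := by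
  have hy1 : aff w y = 1 := (zmod2_cases _).resolve_left hy0
  have h2 : (1 : ZMod 2) + 1 = 0 := by decide
  have h1 : #(A.filter (fun α => aff w α = 0)) = #(A.filter (fun α => ¬ aff w α = 0)) := by
    apply Finset.card_bij (fun z _ => xor3 x y z)
    · intro z hz
      rw [Finset.mem_filter] at hz ⊢
      refine ⟨hA x hx y hy z hz.1, ?_⟩
      rw [aff_xor3, hx0, hy1, hz.2]
      decide
    · intro z _ z' _ h
      rw [← xor3_xor3 x y z, h, xor3_xor3]
    · intro z hz
      rw [Finset.mem_filter] at hz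
      refine ⟨xor3 x y z, ?_, xor3_xor3 x y z⟩
      rw [Finset.mem_filter]
      refine ⟨hA x hx y hy z hz.1, ?_⟩
      rw [aff_xor3, hx0, hy1, (zmod2_cases _).resolve_left hz.2]
      decide
  have h3 := Finset.card_filter_add_card_filter_not (s := A) (fun α => aff w α = 0)
  omega

/-- The points of the subcube `β` that satisfy a system. -/
def subaff (β : Fin n → Option Bool) (eqs : List (Finset (Fin n) × Bool)) :
    Finset (Fin n → Bool) :=
  (cube β).filter (fun α => ∀ p ∈ eqs, aff (funOf p) α = 0)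

theorem subaff_closed (β : Fin n → Option Bool) (eqs : List (Finset (Fin n) × Bool)) :
    ∀ x ∈ subaff β eqs, ∀ y ∈ subaff β eqs, ∀ z ∈ subaff β eqs, xor3 x y z ∈ subaff β eqs := by
  intro x hx y hy z hz
  simp only [subaff, cube, Finset.mem_filter, Finset.mem_univ, true_and] at hx hy hz ⊢
  refine ⟨fun i b hb => ?_, fun p hp => ?_⟩
  · simp only [xor3]
    rw [hx.1 i b hb, hy.1 i b hb, hz.1 i b hb]
    cases b <;> rfl
  · rw [aff_xor3, hx.2 p hp, hy.2 p hp, hz.2 p hp]
    decide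

/-- A nonempty affine subset of a subcube is cut out by `r` equations, where `2 ^ r` is the
ratio of the sizes. -/
theorem exists_basis (β : Fin n → Option Bool) (eqs : List (Finset (Fin n) × Bool))
    (hne : (subaff β eqs).Nonempty) :
    ∃ (r : ℕ) (v : Fin r → (Fin n → ZMod 2) × ZMod 2),
      (∀ α ∈ cube β, (α ∈ subaff β eqs ↔ ∀ j, aff (v j) α = 0)) ∧
      #(subaff β eqs) * 2 ^ r = #(cube β) := by
  induction eqs with
  | nil =>
    refine ⟨0, Fin.elim0, ?_, ?_⟩
    · intro α hα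
      simp only [subaff, Finset.mem_filter]
      constructor
      · intro _ j
        exact j.elim0
      · intro _
        exact ⟨hα, by simp⟩
    · simp [subaff]
  | cons p eqs ih =>
    have hsub : subaff β (p :: eqs) = (subaff β eqs).filter (fun α => aff (funOf p) α = 0) := by
      ext α
      simp only [subaff, Finset.mem_filter, List.forall_mem_cons]
      tauto
    obtain ⟨x, hx⟩ := hne
    rw [hsub, Finset.mem_filter] at hx
    obtain ⟨r, v, hv, hcard⟩ := ih ⟨x, hx.1⟩
    by_cases hall : ∀ y ∈ subaff β eqs, aff (funOf p) y = 0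
    · have : subaff β (p :: eqs) = subaff β eqs := by
        rw [hsub]
        exact Finset.filter_true_of_mem hall
      rw [this]
      exact ⟨r, v, hv, hcard⟩
    · push Not at hall
      obtain ⟨y, hy, hy0⟩ := hall
      have hh := card_half _ (subaff_closed β eqs) (funOf p) x hx.1 hx.2 y hy hy0
      refine ⟨r + 1, Fin.cons (funOf p) v, ?_, ?_⟩
      · intro α hα
        rw [hsub, Finset.mem_filter, hv α hα]
        constructor
        · intro h j
          refine Fin.cases ?_ (fun i => ?_) j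
          · rw [Fin.cons_zero]
            exact h.2
          · rw [Fin.cons_succ]
            exact h.1 i
        · intro h
          refine ⟨fun i => ?_, ?_⟩
          · have := h i.succ
            rwa [Fin.cons_succ] at this
          · have := h 0
            rwa [Fin.cons_zero] at this
      · rw [hsub, ← hcard, ← hh]
        ring

theorem aff_zero (α : Fin n → Bool) : aff (0 : (Fin n → ZMod 2) × ZMod 2) α = 0 := by
  simp [aff]

theorem sgn_aff_sum {r : ℕ} (v : Fin r → (Fin n → ZMod 2) × ZMod 2) (J : Finset (Fin r))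
    (α : Fin n → Bool) : sgn (aff (∑ j ∈ J, v j) α) = ∏ j ∈ J, sgn (aff (v j) α) := by
  induction J using Finset.induction_on with
  | empty => simp [aff_zero, sgn]
  | insert j J hj ih =>
    rw [Finset.sum_insert hj, Finset.prod_insert hj, aff_add, sgn_add, ih]

/-- The family of the characters on subcubes and of the points. -/
noncomputable def fam (n : ℕ) : Finset ((Fin n → Bool) → ℝ) :=
  open Classical in
  (univ : Finset (((Fin n → ZMod 2) × ZMod 2) × (Fin n → Option Bool))).image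
    (fun p α => if α ∈ cube p.2 then sgn (aff p.1 α) else 0) ∪
  (univ : Finset (Fin n → Bool)).image (fun x α => if α = x then 1 else 0)

theorem card_fam (n : ℕ) (hn : 1 ≤ n) : #(fam n) ≤ 2 ^ (4 * n) := by
  have h1 : #(fam n) ≤ (2 ^ n * 2) * 3 ^ n + 2 ^ n := by
    refine (Finset.card_union_le _ _).trans (Nat.add_le_add ?_ ?_)
    · refine Finset.card_image_le.trans (le_of_eq ?_)
      rw [Finset.card_univ, Fintype.card_prod, Fintype.card_prod, Fintype.card_fun,
        Fintype.card_fun, ZMod.card, Fintype.card_option, Fintype.card_bool, Fintype.card_fin]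
    · refine Finset.card_image_le.trans (le_of_eq ?_)
      rw [Finset.card_univ, Fintype.card_fun, Fintype.card_bool, Fintype.card_fin]
  refine h1.trans ?_
  have h2 : (2 ^ n * 2) * 3 ^ n + 2 ^ n ≤ (2 ^ n * 2) * 4 ^ n := by
    have h3 : 3 ^ n + 1 ≤ 4 ^ n := by
      have := Nat.pow_lt_pow_left (show 3 < 4 by norm_num) (show n ≠ 0 by omega)
      omega
    calc (2 ^ n * 2) * 3 ^ n + 2 ^ n ≤ (2 ^ n * 2) * 3 ^ n + (2 ^ n * 2) * 1 := by omega
      _ = (2 ^ n * 2) * (3 ^ n + 1) := by ring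
      _ ≤ (2 ^ n * 2) * 4 ^ n := Nat.mul_le_mul_left _ h3
  refine h2.trans ?_
  have h4 : (4:ℕ) ^ n = 2 ^ (2 * n) := by
    rw [pow_mul]; norm_num
  rw [h4, ← pow_succ, ← pow_add]
  exact Nat.pow_le_pow_right (by norm_num) (by omega)

/-- The decomposition of an affine subset of a subcube. -/
theorem decompose (β : Fin n → Option Bool) (eqs : List (Finset (Fin n) × Bool)) :
    ∃ (κ : Type) (_ : Fintype κ) (f : κ → (Fin n → Bool) → ℝ) (w : κ → ℝ),
      (Fintype.card κ : ℝ) ≤ (2:ℝ) ^ ((n:ℝ) / 2) ∧ (∀ j, f j ∈ fam n) ∧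
      (∀ α, ∑ j, w j * f j α = if α ∈ subaff β eqs then 1 else 0) ∧
      (∑ j, w j ^ 2 * ∑ α, f j α ^ 2 = #(subaff β eqs)) ∧
      (∀ j α, f j α ≠ 0 → α ∈ cube β) := by
  classical
  by_cases hsmall : (#(subaff β eqs) : ℝ) ≤ (2:ℝ) ^ ((n:ℝ) / 2)
  · refine ⟨subaff β eqs, inferInstance, fun x α => if α = x.1 then 1 else 0, fun _ => 1, ?_, ?_,
      ?_, ?_, ?_⟩
    · rw [Fintype.card_coe]
      exact hsmall
    · intro x
      rw [fam, Finset.mem_union]
      right
      exact Finset.mem_image.mpr ⟨x.1, Finset.mem_univ _, rfl⟩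
    · intro α
      simp only [one_mul]
      rw [Finset.sum_coe_sort (subaff β eqs) (fun x => if α = x then (1:ℝ) else 0)]
      rw [Finset.sum_ite_eq]
    · have h1 : ∀ x : subaff β eqs, (1:ℝ) ^ 2 * ∑ α : Fin n → Bool,
          (if α = x.1 then (1:ℝ) else 0) ^ 2 = 1 := by
        intro x
        have : ∀ α : Fin n → Bool, (if α = x.1 then (1:ℝ) else 0) ^ 2 =
            if α = x.1 then 1 else 0 := by
          intro α; split_ifs <;> norm_num
        simp only [this, Finset.sum_ite_eq', Finset.mem_univ, if_true]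
        norm_num
      rw [Finset.sum_congr rfl (fun x _ => h1 x), Finset.sum_const, Finset.card_univ,
        Fintype.card_coe, nsmul_eq_mul, mul_one]
    · intro x α h
      have : α = x.1 := by
        by_contra hcon
        exact h (if_neg hcon)
      rw [this]
      exact (Finset.mem_filter.mp x.2).1
  · push Not at hsmall
    have hne : (subaff β eqs).Nonempty := by
      rw [Finset.nonempty_iff_ne_empty]
      intro h
      rw [h] at hsmall
      simp only [Finset.card_empty, Nat.cast_zero] at hsmall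
      have : (0:ℝ) < (2:ℝ) ^ ((n:ℝ) / 2) := by positivity
      linarith
    obtain ⟨r, v, hv, hcard⟩ := exists_basis β eqs hne
    have hcube : #(cube β) ≤ 2 ^ n := by
      refine (Finset.card_le_univ _).trans ?_
      rw [Fintype.card_fun, Fintype.card_bool, Fintype.card_fin]
    refine ⟨Finset (Fin r), inferInstance,
      fun J α => if α ∈ cube β then sgn (aff (∑ j ∈ J, v j) α) else 0,
      fun _ => (1 / 2) ^ r, ?_, ?_, ?_, ?_, ?_⟩
    · rw [Fintype.card_finset, Fintype.card_fin]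
      push_cast
      have h1 : (#(subaff β eqs) : ℝ) * 2 ^ r ≤ 2 ^ n := by
        have : #(subaff β eqs) * 2 ^ r ≤ 2 ^ n := hcard.le.trans hcube
        exact_mod_cast this
      have h2 : (2:ℝ) ^ ((n:ℝ) / 2) * 2 ^ r ≤ (2:ℝ) ^ ((n:ℝ) / 2) * (2:ℝ) ^ ((n:ℝ) / 2) := by
        calc (2:ℝ) ^ ((n:ℝ) / 2) * 2 ^ r ≤ #(subaff β eqs) * 2 ^ r := by gcongr
          _ ≤ 2 ^ n := h1
          _ = (2:ℝ) ^ ((n:ℝ) / 2) * (2:ℝ) ^ ((n:ℝ) / 2) := by
            rw [← Real.rpow_add (by norm_num), ← Real.rpow_natCast]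
            congr 1
            ring
      exact le_of_mul_le_mul_left h2 (by positivity)
    · intro J
      rw [fam, Finset.mem_union]
      left
      exact Finset.mem_image.mpr ⟨(∑ j ∈ J, v j, β), Finset.mem_univ _, rfl⟩
    · intro α
      by_cases hα : α ∈ cube β
      · simp only [if_pos hα, sgn_aff_sum]
        rw [← Finset.mul_sum]
        have h1 : ∑ J : Finset (Fin r), ∏ j ∈ J, sgn (aff (v j) α) =
            ∏ j : Fin r, (1 + sgn (aff (v j) α)) := by
          rw [Finset.prod_one_add, Finset.powerset_univ]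
        rw [h1]
        by_cases hin : α ∈ subaff β eqs
        · rw [if_pos hin]
          have h2 := (hv α hα).mp hin
          have h3 : ∀ j, 1 + sgn (aff (v j) α) = 2 := by
            intro j
            rw [h2 j]
            simp only [sgn]
            norm_num
          rw [Finset.prod_congr rfl (fun j _ => h3 j), Finset.prod_const, Finset.card_univ,
            Fintype.card_fin, ← mul_pow]
          norm_num
        · rw [if_neg hin]
          have h2 : ∃ j, aff (v j) α ≠ 0 := by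
            by_contra hcon
            push Not at hcon
            exact hin ((hv α hα).mpr hcon)
          obtain ⟨j, hj⟩ := h2
          have h3 : 1 + sgn (aff (v j) α) = 0 := by
            rw [(zmod2_cases _).resolve_left hj, sgn_one]
            norm_num
          rw [Finset.prod_eq_zero (Finset.mem_univ j) h3, mul_zero]
      · simp only [if_neg hα, mul_zero, Finset.sum_const_zero]
        rw [if_neg]
        intro hin
        exact hα (Finset.mem_filter.mp hin).1
    · have h2 : ∀ J : Finset (Fin r), ∑ α : Fin n → Bool,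
          (if α ∈ cube β then sgn (aff (∑ j ∈ J, v j) α) else 0) ^ 2 = #(cube β) := by
        intro J
        have : ∀ α : Fin n → Bool, (if α ∈ cube β then sgn (aff (∑ j ∈ J, v j) α) else 0) ^ 2 =
            if α ∈ cube β then 1 else 0 := by
          intro α
          split_ifs
          · rw [sq, sgn_sq]
          · norm_num
        simp only [this]
        rw [Finset.sum_ite_mem, Finset.univ_inter, Finset.sum_const, nsmul_eq_mul, mul_one]
      have h3 : ((1:ℝ) / 2) ^ r * 2 ^ r = 1 := by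
        rw [← mul_pow]; norm_num
      have hc : ((#(cube β) : ℕ) : ℝ) = ((#(subaff β eqs) : ℕ) : ℝ) * 2 ^ r := by
        rw [← hcard]; push_cast; ring
      have h4 : ∀ (a c : ℝ), a * 2 ^ r = 1 → (2:ℝ) ^ r * (a ^ 2 * (c * 2 ^ r)) = c := by
        intro a c ha
        calc (2:ℝ) ^ r * (a ^ 2 * (c * 2 ^ r)) = (a * 2 ^ r) ^ 2 * c := by ring
          _ = c := by rw [ha]; ring
      simp only [h2]
      rw [Finset.sum_const, Finset.card_univ, Fintype.card_finset, Fintype.card_fin,
        nsmul_eq_mul, hc]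
      push_cast
      exact h4 _ _ h3
    · intro J α h
      by_contra hcon
      exact h (if_neg hcon)

end Pool.Agent.Lib.MP_0e79d0_lcF
end

section

/-!
Lower bounds for partitions of the cube into affine subspaces.
-/

namespace Pool.Agent.Lib.MP_0e79d0_lcF

open Finset Pool.Agent.Lib.MP_0e79d0_lc

variable {n k : ℕ}

theorem ncard_vars_singleton (C : KClause k n) : (vars ({C} : Set (KClause k n))).ncard ≤ k := by
  classical
  have h1 : vars ({C} : Set (KClause k n)) ⊆ ((C.1.image Prod.fst : Finset (Fin n)) : Set (Fin n)) := by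
    rintro v ⟨C', hC', b, hb⟩
    rw [Set.mem_singleton_iff] at hC'
    subst hC'
    rw [Finset.mem_coe, Finset.mem_image]
    exact ⟨(v, b), hb, rfl⟩
  calc (vars ({C} : Set (KClause k n))).ncard
      ≤ ((C.1.image Prod.fst : Finset (Fin n)) : Set (Fin n)).ncard :=
        Set.ncard_le_ncard h1 (Finset.finite_toSet _)
    _ = #(C.1.image Prod.fst) := Set.ncard_coe_finset _
    _ ≤ #C.1 := Finset.card_image_le
    _ ≤ k := C.2

/-- The decomposition of an affine subspace on which a clause is false. -/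
theorem part_decompose (A : Set (Fin n → Bool)) (hA : IsAffine A) (C : KClause k n)
    (hC : ∀ α ∈ A, ¬ SatisfiesClause α C) :
    ∃ (κ : Type) (_ : Fintype κ) (f : κ → (Fin n → Bool) → ℝ) (w : κ → ℝ),
      (Fintype.card κ : ℝ) ≤ (2:ℝ) ^ ((n:ℝ) / 2) ∧ (∀ j, f j ∈ fam n) ∧
      (∀ α, ∑ j, w j * f j α = A.indicator (fun _ => 1) α) ∧
      (∑ j, w j ^ 2 * ∑ α, f j α ^ 2 = ∑ α, A.indicator (fun _ => 1) α) ∧
      (∀ j α, f j α ≠ 0 → ¬ SatisfiesClause α C) := by
  classical
  rcases A.eq_empty_or_nonempty with h0 | ⟨α₀, hα₀⟩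
  · refine ⟨Empty, inferInstance, fun e => e.elim, fun e => e.elim, ?_, fun e => e.elim, ?_, ?_,
      fun e => e.elim⟩
    · simp only [Fintype.card_empty, Nat.cast_zero]
      positivity
    · intro α
      simp [h0]
    · simp [h0]
  · obtain ⟨eqs, heqs⟩ := hA
    set β : Fin n → Option Bool :=
      fun v => if v ∈ vars ({C} : Set (KClause k n)) then some (α₀ v) else none with hβ
    have hcubeC : ∀ α ∈ cube β, ¬ SatisfiesClause α C := by
      intro α hα hsat
      obtain ⟨l, hl, hl'⟩ := hsat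
      apply hC α₀ hα₀
      refine ⟨l, hl, ?_⟩
      have hv : l.1 ∈ vars ({C} : Set (KClause k n)) := ⟨C, rfl, l.2, hl⟩
      have h1 := (Finset.mem_filter.mp hα).2 l.1 (α₀ l.1) (by rw [hβ]; simp only [if_pos hv])
      rw [← h1]
      exact hl'
    have hAcube : ∀ α ∈ A, α ∈ cube β := by
      intro α hα
      refine Finset.mem_filter.mpr ⟨Finset.mem_univ _, fun v b hb => ?_⟩
      rw [hβ] at hb
      simp only at hb
      split_ifs at hb with hv
      rw [Option.some_inj] at hb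
      obtain ⟨C', hC', c, hc⟩ := hv
      rw [Set.mem_singleton_iff] at hC'
      subst hC'
      have h1 : α v ≠ c := fun h => hC α hα ⟨(v, c), hc, h⟩
      have h2 : α₀ v ≠ c := fun h => hC α₀ hα₀ ⟨(v, c), hc, h⟩
      rw [← hb]
      revert h1 h2
      cases α v <;> cases α₀ v <;> cases c <;> simp
    have hsub : ∀ α, α ∈ subaff β eqs ↔ α ∈ A := by
      intro α
      have h1 : α ∈ A ↔ ∀ p ∈ eqs, parity p.1 α = p.2 := by rw [heqs]; rfl
      constructor
      · intro h
        rw [h1]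
        intro p hp
        exact (aff_funOf p α).mp ((Finset.mem_filter.mp h).2 p hp)
      · intro h
        refine Finset.mem_filter.mpr ⟨hAcube α h, fun p hp => ?_⟩
        exact (aff_funOf p α).mpr (h1.mp h p hp)
    obtain ⟨κ, hκ, f, w, h1, h2, h3, h4, h5⟩ := decompose β eqs
    have hind : ∀ α, A.indicator (fun _ => (1:ℝ)) α = if α ∈ subaff β eqs then 1 else 0 := by
      intro α
      rw [Set.indicator_apply]
      simp only [hsub α]
    refine ⟨κ, hκ, f, w, h1, h2, fun α => ?_, ?_, fun j α h => hcubeC α (h5 j α h)⟩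
    · rw [h3 α, hind α]
    · rw [h4]
      simp only [hind]
      rw [Finset.sum_ite_mem, Finset.univ_inter, Finset.sum_const, nsmul_eq_mul, mul_one]

/-- The lower bound for partitions into affine subspaces for constant clause width. -/
theorem half_main (ε : ℝ) (hε : 0 < ε) (hε1 : ε ≤ 1) : ∃ n₀ : ℕ, ∀ n ≥ n₀, ∀ k : ℕ,
    320 / ε * (Real.logb 2 (10 / ε) + 4) ^ 2 ≤ k → (k : ℝ) ≤ (1 - ε) * n →
    ∃ F : Set (KClause k n), ¬ Satisfiable F ∧
      ∀ (s : ℕ) (A : Fin s → Set (Fin n → Bool)), (∀ i, IsAffine (A i)) →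
        (∀ α, ∃! i, α ∈ A i) → (∀ i, ∃ C ∈ F, ∀ α ∈ A i, ¬ SatisfiesClause α C) →
        (2:ℝ) ^ ((1 / 2 - ε) * n) ≤ s := by
  classical
  obtain ⟨n₀, hn₀⟩ := family_main ε hε hε1
  refine ⟨max n₀ 9, fun n hn k hk hkn => ?_⟩
  have hn9 : 9 ≤ n := (le_max_right _ _).trans hn
  have hlog4 : Real.logb 2 4 = 2 := by
    rw [Real.logb_eq_iff_rpow_eq (by norm_num) (by norm_num) (by norm_num)]
    norm_num
  obtain ⟨F, hF, hF'⟩ := hn₀ n ((le_max_left _ _).trans hn) 4 k (by norm_num)
    (by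
      rw [hlog4]
      have : (9:ℝ) ≤ n := by exact_mod_cast hn9
      linarith)
    (by
      rw [hlog4]
      convert hk using 1
      ring)
    (fam n)
    (by
      have h1 : (#(fam n) : ℝ) ≤ ((2 ^ (4 * n) : ℕ) : ℝ) := by
        exact_mod_cast card_fam n (by omega)
      refine h1.trans (le_of_eq ?_)
      push_cast
      rw [← Real.rpow_natCast 2 (4 * n)]
      push_cast
      rfl)
  refine ⟨F, hF, fun s A hA hpart hfal => ?_⟩
  choose C hCF hCA using hfal
  choose κ hκ f w h1 h2 h3 h4 h5 using fun i => part_decompose (A i) (hA i) (C i) (hCA i)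
  have hkey := hF' (Σ i, κ i) (fun p => f p.1 p.2) (fun p => w p.1 p.2) (fun p => h2 p.1 p.2)
    (fun α => by
      rw [Fintype.sum_sigma]
      simp only [h3]
      obtain ⟨i, hi, huniq⟩ := hpart α
      rw [Finset.sum_eq_single i]
      · simp [hi]
      · intro j _ hj
        rw [Set.indicator_of_notMem]
        intro hjα
        exact hj (huniq j hjα)
      · intro h
        exact absurd (Finset.mem_univ i) h)
    (fun p => ⟨{C p.1}, by
      rintro _ rfl
      exact hCF p.1, by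
      refine le_trans ?_ hkn
      exact_mod_cast ncard_vars_singleton (C p.1), fun α hα => ⟨C p.1, rfl, h5 p.1 p.2 α hα⟩⟩)
  have hcard : (Fintype.card (Σ i, κ i) : ℝ) ≤ s * (2:ℝ) ^ ((n:ℝ) / 2) := by
    rw [Fintype.card_sigma]
    push_cast
    calc ∑ i : Fin s, (Fintype.card (κ i) : ℝ) ≤ ∑ i : Fin s, (2:ℝ) ^ ((n:ℝ) / 2) :=
          Finset.sum_le_sum fun i _ => h1 i
      _ = s * (2:ℝ) ^ ((n:ℝ) / 2) := by
          rw [Finset.sum_const, Finset.card_univ, Fintype.card_fin, nsmul_eq_mul]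
  have hen : ∑ p : (Σ i, κ i), w p.1 p.2 ^ 2 * ∑ α, f p.1 p.2 α ^ 2 = 2 ^ n := by
    rw [Fintype.sum_sigma]
    simp only [h4]
    rw [Finset.sum_comm]
    have h6 : ∀ α : Fin n → Bool, ∑ i, (A i).indicator (fun _ => (1:ℝ)) α = 1 := by
      intro α
      obtain ⟨i, hi, huniq⟩ := hpart α
      rw [Finset.sum_eq_single i]
      · simp [hi]
      · intro j _ hj
        rw [Set.indicator_of_notMem]
        intro hjα
        exact hj (huniq j hjα)
      · intro h
        exact absurd (Finset.mem_univ i) h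
    rw [Finset.sum_congr rfl (fun α _ => h6 α), Finset.sum_const, Finset.card_univ,
      Fintype.card_fun, Fintype.card_bool, Fintype.card_fin, nsmul_eq_mul, mul_one]
    push_cast
    rfl
  rw [hen] at hkey
  have h7 : (2:ℝ) ^ ((1 - ε) * n) ≤ Fintype.card (Σ i, κ i) :=
    le_of_mul_le_mul_right hkey (by positivity)
  have h8 : (2:ℝ) ^ ((1 / 2 - ε) * n) * (2:ℝ) ^ ((n:ℝ) / 2) ≤ s * (2:ℝ) ^ ((n:ℝ) / 2) := by
    refine le_trans (le_of_eq ?_) (h7.trans hcard)
    rw [← Real.rpow_add (by norm_num)]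
    congr 1
    ring
  exact le_of_mul_le_mul_right h8 (by positivity)

/-- The lower bound for partitions into affine subspaces, with exponent `1 - ε`. -/
theorem affine_partition_main (ε : ℝ) (hε : 0 < ε) (hε1 : ε ≤ 1) : ∃ n₀ : ℕ, ∀ n ≥ n₀, ∀ k : ℕ,
    320 / ε * (Real.logb 2 (10 / ε) + 4) * (Real.logb 2 (10 / ε) + Real.logb 2 n + 3) ≤ k →
    ∃ F : Set (KClause k n), ¬ Satisfiable F ∧
      ∀ (s : ℕ) (A : Fin s → Set (Fin n → Bool)), (∀ i, IsAffine (A i)) →
        (∀ α, ∃! i, α ∈ A i) →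
        (∀ i, ∃ T : Set (KClause k n), T ⊆ F ∧ ((vars T).ncard : ℝ) ≤ (1 - ε) * n ∧
          ∀ α ∈ A i, ∃ C ∈ T, ¬ SatisfiesClause α C) →
        (2:ℝ) ^ ((1 - ε) * n) ≤ s := by
  classical
  obtain ⟨n₀, hn₀⟩ := family_main ε hε hε1
  have hlim : ∃ n₁ : ℕ, ∀ n ≥ n₁, (Real.logb 2 n + 2) ^ 2 ≤ (n : ℝ) := by
    refine ⟨128, fun n hn => ?_⟩
    have hn0 : n ≠ 0 := by omega
    obtain ⟨m, hm⟩ : ∃ m, m = Nat.log 2 n := ⟨_, rfl⟩
    have hm7 : 7 ≤ m := by
      rw [hm]
      exact (Nat.le_log_iff_pow_le (by norm_num) hn0).mpr (by norm_num; exact hn)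
    have h1 : 2 ^ m ≤ n := by rw [hm]; exact Nat.pow_log_le_self 2 hn0
    have h2 : n < 2 ^ (m + 1) := by rw [hm]; exact Nat.lt_pow_succ_log_self (by norm_num) n
    have h3 : (m + 3) ^ 2 ≤ 2 ^ m := by
      clear hm h1 h2
      induction m, hm7 using Nat.le_induction with
      | base => norm_num
      | succ m hm ih =>
        rw [pow_succ 2 m]
        nlinarith
    have hnr : (0:ℝ) < n := by positivity
    have h4 : Real.logb 2 n ≤ m + 1 := by
      rw [Real.logb_le_iff_le_rpow (by norm_num) hnr]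
      have : ((n : ℕ) : ℝ) ≤ ((2 ^ (m + 1) : ℕ) : ℝ) := by exact_mod_cast h2.le
      refine this.trans (le_of_eq ?_)
      rw [← Nat.cast_succ, Real.rpow_natCast]
      push_cast
      rfl
    have h5 : 0 ≤ Real.logb 2 n := Real.logb_nonneg (by norm_num) (by
      have : (1:ℝ) ≤ n := by exact_mod_cast (by omega : 1 ≤ n)
      exact this)
    calc (Real.logb 2 n + 2) ^ 2 ≤ ((m:ℝ) + 3) ^ 2 :=
          pow_le_pow_left₀ (by linarith) (by linarith) 2
      _ ≤ 2 ^ m := by exact_mod_cast h3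
      _ ≤ n := by exact_mod_cast h1
  obtain ⟨n₁, hn₁⟩ := hlim
  refine ⟨max (max n₀ n₁) 3, fun n hn k hk => ?_⟩
  have hn3 : 3 ≤ n := (le_max_right _ _).trans hn
  have hn3' : (3:ℝ) ≤ n := by exact_mod_cast hn3
  have hlog : Real.logb 2 (2 * n) = Real.logb 2 n + 1 := by
    rw [Real.logb_mul (by norm_num) (by linarith), Real.logb_self_eq_one (by norm_num)]
    ring
  obtain ⟨𝒜, h𝒜, h𝒜'⟩ := card_parity_regions n
  obtain ⟨F, hF, hF'⟩ := hn₀ n ((le_max_left _ _).trans ((le_max_left _ _).trans hn))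
    (2 * n) k (by linarith)
    (by
      rw [hlog]
      convert hn₁ n ((le_max_right _ _).trans ((le_max_left _ _).trans hn)) using 2
      ring)
    (by
      rw [hlog]
      convert hk using 2
      ring)
    (𝒜.image (fun A α => if α ∈ A then (1:ℝ) else 0))
    (by
      have h1 : (#(𝒜.image (fun A α => if α ∈ A then (1:ℝ) else 0)) : ℝ) ≤
          ((2 ^ ((n + 1) * (n + 1)) : ℕ) : ℝ) := by
        exact_mod_cast (card_image_ind_le 𝒜).trans h𝒜
      refine h1.trans ?_
      push_cast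
      rw [← Real.rpow_natCast 2 ((n + 1) * (n + 1))]
      apply Real.rpow_le_rpow_of_exponent_le (by norm_num)
      push_cast
      nlinarith)
  refine ⟨F, hF, fun s A hA hpart hfal => ?_⟩
  choose eqs heqs using hA
  have hmem : ∀ i α, α ∈ reg parity (eqs i) ↔ α ∈ A i := by
    intro i α
    have h1 : α ∈ A i ↔ ∀ p ∈ eqs i, parity p.1 α = p.2 := by rw [heqs i]; rfl
    rw [h1]
    simp [reg]
  have hsum : ∀ α : Fin n → Bool, ∑ i, (if α ∈ reg parity (eqs i) then (1:ℝ) else 0) = 1 := by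
    intro α
    obtain ⟨i, hi, huniq⟩ := hpart α
    rw [Finset.sum_eq_single i]
    · rw [if_pos ((hmem i α).mpr hi)]
    · intro j _ hj
      rw [if_neg]
      intro hjα
      exact hj (huniq j ((hmem j α).mp hjα))
    · intro h
      exact absurd (Finset.mem_univ i) h
  have hkey := hF' (Fin s) (fun i α => if α ∈ reg parity (eqs i) then (1:ℝ) else 0) (fun _ => 1)
    (fun i => Finset.mem_image.mpr ⟨_, h𝒜' (eqs i), rfl⟩)
    (fun α => by
      simp only [one_mul]
      exact hsum α)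
    (fun i => by
      obtain ⟨T, hT, hTm, hTα⟩ := hfal i
      refine ⟨T, hT, hTm, fun α hα => hTα α ?_⟩
      by_contra hcon
      exact hα (if_neg (fun h => hcon ((hmem i α).mp h))))
  have hen : ∑ i : Fin s, (1:ℝ) ^ 2 * ∑ α : Fin n → Bool,
      (if α ∈ reg parity (eqs i) then (1:ℝ) else 0) ^ 2 = 2 ^ n := by
    have e1 : ∀ (i : Fin s) (α : Fin n → Bool),
        (if α ∈ reg parity (eqs i) then (1:ℝ) else 0) ^ 2 =
        if α ∈ reg parity (eqs i) then (1:ℝ) else 0 := by
      intro i α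
      split_ifs <;> norm_num
    simp only [e1, one_pow, one_mul]
    rw [Finset.sum_comm, Finset.sum_congr rfl (fun α _ => hsum α), Finset.sum_const,
      Finset.card_univ, Fintype.card_fun, Fintype.card_bool, Fintype.card_fin, nsmul_eq_mul,
      mul_one]
    push_cast
    rfl
  rw [hen, Fintype.card_fin] at hkey
  exact le_of_mul_le_mul_right hkey (by positivity)

end Pool.Agent.Lib.MP_0e79d0_lcF
end
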